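import Pool.Agent.Zk5.HR4.Xc2
import Pool.Agent.Zk5.HR3.Dist
import Pool.Agent.Zk5.HR.Qs

set_option autoImplicit false

/-! # The sum of the distances of the zeros to the right of `θ`, and the measure of the bad heights -/

namespace Pool.Agent.Zk5.HR4

open Complex Filter Topology MeasureTheory Set
open H370 (mult zset GoodL good_zeta NN Zf)
open Pool.Agent.Zk5.HR
open Pool.Agent.Zk69.Hx (IncF DecF decF_of_incF)

open Pool.Agent.Zk5.HR3 (DS)

theorem dist_le2 : ∃ C : ℝ, 0 < C ∧ ∀ θ T : ℝ, 1 / 2 ≤ θ → 2 ≤ T →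
    DS θ T ≤ C + C * Real.log T ^ 3 * vol {t : ℝ | ¬ DecF θ t} (T + 1) := by
  classical
  obtain ⟨T0, hT0, hloc⟩ := local_zero2
  obtain ⟨C0, hC0, hcount⟩ := H370.zcount good_zeta
  obtain ⟨M0, hM0⟩ : ∃ M0 : ℝ, M0 = ∑ s ∈ Zf riemannZeta 1 T0, (mult riemannZeta s : ℝ) := ⟨_, rfl⟩
  have hM0n : 0 ≤ M0 := by
    rw [hM0]
    exact Finset.sum_nonneg fun s _ => Nat.cast_nonneg _
  refine ⟨M0 + 10 ^ 8 * C0 + 1, by positivity, ?_⟩
  intro θ T hθ hT
  obtain ⟨B, hB⟩ : ∃ B : Set ℝ, B = {t : ℝ | ¬ DecF θ t} := ⟨_, rfl⟩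
  rw [← hB]
  have hl0 : 0 < Real.log T := Real.log_pos (by linarith)
  have hv0 : 0 ≤ vol B (T + 1) := vol_nonneg _ _
  -- the two parts of the sum
  obtain ⟨Z, hZ⟩ : ∃ Z : Finset ℂ, Z = (Zf riemannZeta 1 T).filter (fun s => T0 < s.im ∧ θ < s.re) := ⟨_, rfl⟩
  have hmemZ : ∀ s ∈ Z, riemannZeta s = 0 ∧ θ < s.re ∧ s.re < 1 ∧ T0 < s.im ∧ s.im ≤ T := by
    intro s hs
    rw [hZ, Finset.mem_filter, H370.mem_Zf good_zeta le_rfl] at hs
    obtain ⟨⟨h1, h2, h3, h4, h5⟩, h6, h7⟩ := hs
    exact ⟨h5, h7, h2, h6, h4⟩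
  have hsplit : DS θ T ≤ M0 + ∑ s ∈ Z, (mult riemannZeta s : ℝ) * (s.re - θ) := by
    unfold DS
    rw [hM0, hZ, ← Finset.sum_filter_add_sum_filter_not (Zf riemannZeta 1 T) (fun s => T0 < s.im ∧ θ < s.re), add_comm]
    apply add_le_add
    · have h1 : ∑ s ∈ (Zf riemannZeta 1 T).filter (fun s => ¬ (T0 < s.im ∧ θ < s.re)),
          (mult riemannZeta s : ℝ) * max (s.re - θ) 0 ≤
          ∑ s ∈ (Zf riemannZeta 1 T).filter (fun s => s.im ≤ T0), (mult riemannZeta s : ℝ) := by
        have h2 : ∀ s ∈ (Zf riemannZeta 1 T).filter (fun s => ¬ (T0 < s.im ∧ θ < s.re)),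
            (mult riemannZeta s : ℝ) * max (s.re - θ) 0 ≤ if s.im ≤ T0 then (mult riemannZeta s : ℝ) else 0 := by
          intro s hs
          rw [Finset.mem_filter, H370.mem_Zf good_zeta le_rfl] at hs
          obtain ⟨⟨h1, h2, h3, h4, h5⟩, h6⟩ := hs
          have hm : (0 : ℝ) ≤ mult riemannZeta s := Nat.cast_nonneg _
          split_ifs with h7
          · have h8 : max (s.re - θ) 0 ≤ 1 := max_le (by linarith) zero_le_one
            nlinarith
          · have h8 : s.re ≤ θ := by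
              by_contra h9
              exact h6 ⟨not_le.1 h7, not_le.1 h9⟩
            rw [max_eq_right (by linarith), mul_zero]
        refine (Finset.sum_le_sum h2).trans ?_
        rw [← Finset.sum_filter]
        apply Finset.sum_le_sum_of_subset_of_nonneg
        · intro s hs
          rw [Finset.mem_filter, Finset.mem_filter] at hs
          rw [Finset.mem_filter]
          exact ⟨hs.1.1, hs.2⟩
        · intro s _ _
          exact Nat.cast_nonneg _
      refine h1.trans ?_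
      apply Finset.sum_le_sum_of_subset_of_nonneg
      · intro s hs
        rw [Finset.mem_filter, H370.mem_Zf good_zeta le_rfl] at hs
        rw [H370.mem_Zf good_zeta le_rfl]
        obtain ⟨⟨h1, h2, h3, h4, h5⟩, h6⟩ := hs
        exact ⟨h1, h2, h3, h6, h5⟩
      · intro s _ _
        exact Nat.cast_nonneg _
    · refine Finset.sum_le_sum fun s hs => ?_
      rw [Finset.mem_filter] at hs
      rw [max_eq_left (by linarith [hs.2.2])]
  -- the intervals
  obtain ⟨w, hw⟩ : ∃ w : ℂ → ℝ, w = fun s => (s.re - θ) / (10 ^ 8 * Real.log T ^ 2) := ⟨_, rfl⟩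
  by_cases hTT : T ≤ T0
  · have hZe : Z = ∅ := by
      rw [Finset.eq_empty_iff_forall_notMem]
      intro s hs
      obtain ⟨h1, h2, h3, h4, h5⟩ := hmemZ s hs
      linarith
    rw [hZe, Finset.sum_empty, add_zero] at hsplit
    have : 0 ≤ (M0 + 10 ^ 8 * C0 + 1) * Real.log T ^ 3 * vol B (T + 1) := by positivity
    linarith
  push Not at hTT
  have hl1 : 1 ≤ Real.log T := by
    rw [Real.le_log_iff_exp_le (by linarith)]
    linarith [Real.exp_one_lt_d9]
  have hwpos : ∀ s ∈ Z, 0 < w s ∧ w s ≤ 1 / 2 := by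
    intro s hs
    obtain ⟨h1, h2, h3, h4, h5⟩ := hmemZ s hs
    rw [hw]
    refine ⟨div_pos (by linarith) (by positivity), ?_⟩
    simp only
    rw [div_le_iff₀ (by positivity)]
    have : 1 ≤ Real.log T ^ 2 := one_le_pow₀ hl1
    linarith
  have hsub : ∀ s ∈ Z, Icc (s.im - w s) (s.im + w s) ⊆ B ∩ Icc 0 (T + 1) := by
    intro s hs t ht
    obtain ⟨h1, h2, h3, h4, h5⟩ := hmemZ s hs
    obtain ⟨h6, h7⟩ := hwpos s hs
    refine ⟨?_, by linarith [ht.1], by linarith [ht.2]⟩
    rw [hB]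
    refine (hloc θ t s hθ h1 h2 h4.le ?_).2
    have h8 : w s ≤ (s.re - θ) / (10 ^ 8 * Real.log s.im ^ 2) := by
      rw [hw]
      apply div_le_div_of_nonneg_left (by linarith)
      · have : 0 < Real.log s.im := Real.log_pos (by linarith)
        positivity
      · have h9 : Real.log s.im ≤ Real.log T := Real.log_le_log (by linarith) h5
        have h10 := pow_le_pow_left₀ (Real.log_nonneg (by linarith)) h9 2
        linarith
    refine le_trans ?_ h8
    rw [abs_le]
    constructor <;> linarith [ht.1, ht.2]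
  obtain ⟨U, hU⟩ : ∃ U : Set ℝ, U = ⋃ s ∈ Z, Icc (s.im - w s) (s.im + w s) := ⟨_, rfl⟩
  have hUm : MeasurableSet U := by
    rw [hU]
    exact Finset.measurableSet_biUnion _ fun s _ => measurableSet_Icc
  have hUsub : U ⊆ B ∩ Icc 0 (T + 1) := by
    rw [hU]
    exact iUnion₂_subset hsub
  have hpt : ∀ t : ℝ, ∑ s ∈ Z, (Icc (s.im - w s) (s.im + w s)).indicator (fun _ => ENNReal.ofReal (mult riemannZeta s : ℝ)) t ≤
      U.indicator (fun _ => ENNReal.ofReal (C0 * Real.log (T + 1))) t := by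
    intro t
    by_cases htU : t ∈ U
    · rw [indicator_of_mem htU]
      have htI := (hUsub htU).2
      have ht3 : 3 ≤ t := by
        rw [hU, mem_iUnion₂] at htU
        obtain ⟨s, hs, h1⟩ := htU
        have := (hmemZ s hs).2.2.2.1
        linarith [(hwpos s hs).2, h1.1]
      have h1 : ∑ s ∈ Z, (Icc (s.im - w s) (s.im + w s)).indicator (fun _ => ENNReal.ofReal (mult riemannZeta s : ℝ)) t ≤
          ∑ s ∈ Zf riemannZeta (t - 1) (t + 1), ENNReal.ofReal (mult riemannZeta s : ℝ) := by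
        have h2 : ∀ s ∈ Z, (Icc (s.im - w s) (s.im + w s)).indicator (fun _ => ENNReal.ofReal (mult riemannZeta s : ℝ)) t =
            if t ∈ Icc (s.im - w s) (s.im + w s) then ENNReal.ofReal (mult riemannZeta s : ℝ) else 0 := by
          intro s _
          rw [indicator_apply]
        rw [Finset.sum_congr rfl h2, ← Finset.sum_filter]
        apply Finset.sum_le_sum_of_subset
        intro s hs
        rw [Finset.mem_filter] at hs
        obtain ⟨h3, h4⟩ := hs
        obtain ⟨h5, h6, h7, h8, h9⟩ := hmemZ s h3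
        have h10 := (hwpos s h3).2
        rw [H370.mem_Zf good_zeta (by linarith)]
        exact ⟨by linarith, h7, by linarith [h4.2], by linarith [h4.1], h5⟩
      refine h1.trans ?_
      rw [← ENNReal.ofReal_sum_of_nonneg fun s _ => Nat.cast_nonneg _]
      apply ENNReal.ofReal_le_ofReal
      have h2 := hcount t ht3
      rw [H370.NN_eq good_zeta (by linarith)] at h2
      push_cast at h2
      refine h2.trans (mul_le_mul_of_nonneg_left ?_ hC0.le)
      exact Real.log_le_log (by linarith) htI.2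
    · rw [indicator_of_notMem htU]
      apply le_of_eq
      apply Finset.sum_eq_zero
      intro s hs
      rw [indicator_of_notMem]
      intro h1
      apply htU
      rw [hU, mem_iUnion₂]
      exact ⟨s, hs, h1⟩
  have hlint : ∑ s ∈ Z, ENNReal.ofReal (mult riemannZeta s : ℝ) * ENNReal.ofReal (2 * w s) ≤
      ENNReal.ofReal (C0 * Real.log (T + 1)) * volume (B ∩ Icc 0 (T + 1)) := by
    have h1 := lintegral_mono (μ := volume) hpt
    rw [lintegral_finset_sum _ fun s _ => measurable_const.indicator measurableSet_Icc,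
      lintegral_indicator_const hUm] at h1
    have h2 : ∀ s ∈ Z, ∫⁻ t, (Icc (s.im - w s) (s.im + w s)).indicator (fun _ => ENNReal.ofReal (mult riemannZeta s : ℝ)) t =
        ENNReal.ofReal (mult riemannZeta s : ℝ) * ENNReal.ofReal (2 * w s) := by
      intro s _
      rw [lintegral_indicator_const measurableSet_Icc, Real.volume_Icc]
      congr 2
      ring
    rw [Finset.sum_congr rfl h2] at h1
    exact h1.trans (mul_le_mul_right (measure_mono hUsub) _)
  have hreal : ∑ s ∈ Z, (mult riemannZeta s : ℝ) * (2 * w s) ≤ C0 * Real.log (T + 1) * vol B (T + 1) := by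
    have h1 : ∑ s ∈ Z, ENNReal.ofReal (mult riemannZeta s : ℝ) * ENNReal.ofReal (2 * w s) =
        ENNReal.ofReal (∑ s ∈ Z, (mult riemannZeta s : ℝ) * (2 * w s)) := by
      rw [ENNReal.ofReal_sum_of_nonneg fun s hs => mul_nonneg (Nat.cast_nonneg _) (by linarith [(hwpos s hs).1])]
      refine Finset.sum_congr rfl fun s _ => ?_
      rw [ENNReal.ofReal_mul (Nat.cast_nonneg _)]
    rw [h1] at hlint
    have h2 := ENNReal.toReal_mono (ENNReal.mul_ne_top ENNReal.ofReal_ne_top (vol_fin B (T + 1))) hlint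
    have hlp : 0 ≤ C0 * Real.log (T + 1) := mul_nonneg hC0.le (Real.log_nonneg (by linarith))
    rw [ENNReal.toReal_mul, ENNReal.toReal_ofReal hlp, ENNReal.toReal_ofReal
      (Finset.sum_nonneg fun s hs => mul_nonneg (Nat.cast_nonneg _) (by linarith [(hwpos s hs).1]))] at h2
    exact h2
  have hlog2 : Real.log (T + 1) ≤ 2 * Real.log T := by
    have h1 : Real.log (T + 1) ≤ Real.log (T ^ 2) := by
      apply Real.log_le_log (by linarith)
      nlinarith
    rw [Real.log_pow] at h1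
    exact_mod_cast h1
  have hfin : ∑ s ∈ Z, (mult riemannZeta s : ℝ) * (s.re - θ) ≤ 10 ^ 8 * C0 * Real.log T ^ 3 * vol B (T + 1) := by
    have h1 : ∑ s ∈ Z, (mult riemannZeta s : ℝ) * (s.re - θ) =
        (10 ^ 8 * Real.log T ^ 2 / 2) * ∑ s ∈ Z, (mult riemannZeta s : ℝ) * (2 * w s) := by
      rw [Finset.mul_sum]
      refine Finset.sum_congr rfl fun s _ => ?_
      rw [hw]
      field_simp
    rw [h1]
    calc (10 ^ 8 * Real.log T ^ 2 / 2) * ∑ s ∈ Z, (mult riemannZeta s : ℝ) * (2 * w s) ≤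
        (10 ^ 8 * Real.log T ^ 2 / 2) * (C0 * Real.log (T + 1) * vol B (T + 1)) := mul_le_mul_of_nonneg_left hreal (by positivity)
      _ ≤ (10 ^ 8 * Real.log T ^ 2 / 2) * (C0 * (2 * Real.log T) * vol B (T + 1)) := by gcongr
      _ = _ := by ring
  have h1 : 10 ^ 8 * C0 * Real.log T ^ 3 * vol B (T + 1) ≤ (M0 + 10 ^ 8 * C0 + 1) * Real.log T ^ 3 * vol B (T + 1) := by
    have : 10 ^ 8 * C0 ≤ M0 + 10 ^ 8 * C0 + 1 := by linarith
    gcongr
  linarith

end Pool.Agent.Zk5.HR4
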