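import Pool.Agent.Zk5.HR4.Qb2
import Pool.Agent.Zk5.HR4.Dist2
import Pool.Agent.Zk5.HR.DetZ
import Pool.Agent.Zk6.HL.Sum2

set_option autoImplicit false

/-! # The measure of the bad heights and the sum of the distances, up to three logarithms -/

namespace Pool.Agent.Zk5.HR4

open MeasureTheory Set
open Pool.Agent.Zk5.HR
open Pool.Agent.Zk4
open Pool.Agent.Zk69.Hx (DecF)

theorem decf_half : {t : ℝ | ¬ DecF (1 / 2) t} = BadZ := by
  unfold Pool.Agent.Zk4.BadZ DecF Pool.Agent.Zk4.Anti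
  norm_num

/-- **the near linear bound** -/
theorem near_lin : ∃ C : ℝ, 0 < C ∧ ∀ T : ℝ, 2 ≤ T →
    DD 1 T ≤ C + C * vol BadZ (2 * T) * Real.log (4 * T / vol BadZ (2 * T)) ^ 3 := by
  refine Pool.Agent.Zk6.HL.near_linear (blockq2 det_badz) ?_
  obtain ⟨C, hC, h⟩ := dist_le2
  refine ⟨C, hC, fun T hT => ?_⟩
  have h1 := h (1 / 2) T le_rfl hT
  rw [decf_half] at h1
  exact h1

end Pool.Agent.Zk5.HR4
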