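import Pool.Agent.Zk5.HR4.Half
import Pool.Agent.Zk5.HR.Locq

set_option autoImplicit false

/-!
# A zero destroys the monotonicity in a neighbourhood of its height

If the modulus at the heights near a zero were monotone, the function would be bounded near the zero by its value
at the end point, and the lemma on the half-disc, for `q ↦ f(w - d q²)`, gives a contradiction.
-/

namespace Pool.Agent.Zk5.HR4

open Complex Metric Set H370 H370.Loc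
open Pool.Agent.H24R2.DZ
open Pool.Agent.Zk5.HR

/-- the growth near the end point -/
theorem growth {K : ℝ} (hK : 1 ≤ K) {f : ℂ → ℂ} (hf : Differentiable ℂ f) (h3 : f 3 = 1)
    (hb : ∀ z : ℂ, ‖z‖ ≤ 14 → ‖f z‖ ≤ Real.exp K) {x0 d y : ℝ} (h0 : 0 ≤ x0) (h1 : x0 ≤ 1) (hy : |y| ≤ 5 / 8)
    (hd : 0 < d) (hd1 : d ≤ 1 / 4) : ∃ u : ℝ, x0 - d ≤ u ∧ u < x0 ∧ 0 < ‖f (u + y * I)‖ ∧
      ∀ z : ℂ, ‖z - (x0 + y * I)‖ ≤ d → ‖f z‖ ≤ Real.exp (68 * K) * ‖f (u + y * I)‖ := by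
  classical
  obtain ⟨s, g, hfg, hg0, hgd, hcard, hld⟩ := fact (by linarith : 0 ≤ K) hf h3 hb
  obtain ⟨w1, hw1⟩ : ∃ w1 : ℂ, w1 = x0 + y * I := ⟨_, rfl⟩
  rw [← hw1]
  have hw1re : w1.re = x0 := by rw [hw1]; simp
  have hw1im : w1.im = y := by rw [hw1]; simp
  obtain ⟨sn, hsn⟩ : ∃ t : Multiset ℂ, t = s.filter (fun ρ => ‖w1 - ρ‖ < 2 * d) := ⟨_, rfl⟩
  obtain ⟨sf, hsf⟩ : ∃ t : Multiset ℂ, t = s.filter (fun ρ => ¬ ‖w1 - ρ‖ < 2 * d) := ⟨_, rfl⟩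
  have hsplit : sn + sf = s := by rw [hsn, hsf]; exact Multiset.filter_add_not _ _
  obtain ⟨u, hu1, hu2, hu3⟩ := cheb sn (x0 - d) y (d / 2) (by linarith)
  obtain ⟨w0, hw0⟩ : ∃ w : ℂ, w = u + y * I := ⟨_, rfl⟩
  refine ⟨u, hu1, by linarith, ?_⟩
  rw [← hw0] at hu3 ⊢
  have hw0re : w0.re = u := by rw [hw0]; simp
  have hw0im : w0.im = y := by rw [hw0]; simp
  have hw10 : ‖w1 - w0‖ ≤ d := by
    have h1 : (w1 - w0 : ℂ) = ((x0 - u : ℝ) : ℂ) := by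
      apply Complex.ext
      · simp [hw1re, hw0re]
      · simp [hw1im, hw0im]
    rw [h1, Complex.norm_real, Real.norm_eq_abs, abs_le]
    constructor <;> linarith
  obtain ⟨n, hn⟩ : ∃ n : ℕ, n = Multiset.card s := ⟨_, rfl⟩
  obtain ⟨n1, hn1⟩ : ∃ n : ℕ, n = Multiset.card sn := ⟨_, rfl⟩
  obtain ⟨n2, hn2⟩ : ∃ n : ℕ, n = Multiset.card sf := ⟨_, rfl⟩
  have hnn : n1 + n2 = n := by rw [hn1, hn2, hn, ← Multiset.card_add, hsplit]
  rw [← hn] at hcard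
  rw [← hn1] at hu3
  -- the ball
  have hin : ∀ z : ℂ, ‖z - w1‖ ≤ d → z ∈ closedBall (3 : ℂ) 4 := by
    intro z hz
    rw [mem_closedBall, dist_eq_norm]
    have h4 := Complex.norm_le_abs_re_add_abs_im (w1 - 3)
    have h5 : (w1 - 3 : ℂ).re = x0 - 3 := by simp [hw1re]
    have h6 : (w1 - 3 : ℂ).im = y := by simp [hw1im]
    rw [h5, h6] at h4
    have h7 : |x0 - 3| ≤ 3 := by rw [abs_le]; constructor <;> linarith
    have h8 : ‖z - 3‖ ≤ ‖z - w1‖ + ‖w1 - 3‖ := by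
      calc ‖z - 3‖ = ‖(z - w1) + (w1 - 3)‖ := by congr 1; ring
        _ ≤ _ := norm_add_le _ _
    linarith
  have hsub : closedBall (3 : ℂ) 4 ⊆ closedBall (3 : ℂ) 6 := closedBall_subset_closedBall (by norm_num)
  have h0in : w0 ∈ closedBall (3 : ℂ) 4 := hin w0 (by rw [norm_sub_rev]; exact hw10)
  -- far zeros
  have hfar1 : ∀ ρ ∈ sf, d ≤ ‖w0 - ρ‖ := by
    intro ρ hρ
    rw [hsf, Multiset.mem_filter] at hρ
    have h1 := not_lt.1 hρ.2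
    have h2 : ‖w1 - ρ‖ ≤ ‖w1 - w0‖ + ‖w0 - ρ‖ := by
      calc ‖w1 - ρ‖ = ‖(w1 - w0) + (w0 - ρ)‖ := by congr 1; ring
        _ ≤ _ := norm_add_le _ _
    linarith
  have hpos : 0 < ‖f w0‖ := by
    rw [hfg, norm_mul]
    apply mul_pos _ (norm_pos_iff.2 (hg0 w0 (hsub h0in)))
    rw [← hsplit, Pf_add, norm_mul]
    apply mul_pos
    · exact lt_of_lt_of_le (by positivity) hu3
    · exact lt_of_lt_of_le (by positivity) (Pf_norm_ge hd.le hfar1)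
  refine ⟨hpos, ?_⟩
  intro z hz
  have hz0 : ‖z - w0‖ ≤ 2 * d := by
    calc ‖z - w0‖ = ‖(z - w1) + (w1 - w0)‖ := by congr 1; ring
      _ ≤ ‖z - w1‖ + ‖w1 - w0‖ := norm_add_le _ _
      _ ≤ 2 * d := by linarith
  have hnear : ‖Pf sn z‖ ≤ 36 ^ n1 * ‖Pf sn w0‖ := by
    have h2 : ‖Pf sn z‖ ≤ (3 * d) ^ n1 := by
      rw [hn1]
      refine Pf_norm_le fun ρ hρ => ?_
      rw [hsn, Multiset.mem_filter] at hρ
      calc ‖z - ρ‖ = ‖(z - w1) + (w1 - ρ)‖ := by congr 1; ring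
        _ ≤ ‖z - w1‖ + ‖w1 - ρ‖ := norm_add_le _ _
        _ ≤ 3 * d := by linarith [hρ.2]
    have h4 : (3 * d) ^ n1 = 36 ^ n1 * (d / 2 / 6) ^ n1 := by
      rw [← mul_pow]
      congr 1
      ring
    rw [h4] at h2
    exact h2.trans (mul_le_mul_of_nonneg_left hu3 (by positivity))
  have hfar : ‖Pf sf z‖ ≤ 3 ^ n2 * ‖Pf sf w0‖ := by
    rw [hn2]
    refine Pf_ratio (by norm_num) fun ρ hρ => ?_
    have h1 := hfar1 ρ hρ
    have h2 : ‖z - ρ‖ ≤ ‖z - w0‖ + ‖w0 - ρ‖ := by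
      calc ‖z - ρ‖ = ‖(z - w0) + (w0 - ρ)‖ := by congr 1; ring
        _ ≤ _ := norm_add_le _ _
    linarith
  have hgr := path_grow (g := g) (Q := 10 * (5 * K + 1)) (convex_closedBall (3 : ℂ) 4)
    (fun z hz => hgd z (hsub hz)) (fun z hz => hg0 z (hsub hz)) hld h0in (hin z hz)
  have hgr2 : ‖g z‖ ≤ ‖g w0‖ * Real.exp (60 * K) := by
    refine hgr.trans (mul_le_mul_of_nonneg_left (Real.exp_le_exp.2 ?_) (norm_nonneg _))
    calc 10 * (5 * K + 1) * ‖z - w0‖ ≤ 10 * (5 * K + 1) * 1 := by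
          apply mul_le_mul_of_nonneg_left _ (by linarith)
          linarith
      _ ≤ 60 * K := by linarith
  have h48 : (36 : ℝ) ^ n1 * 3 ^ n2 ≤ Real.exp (8 * K) := by
    have h1 : (36 : ℝ) ^ n1 * 3 ^ n2 ≤ 36 ^ n1 * 36 ^ n2 := by gcongr; norm_num
    have h2 : (36 : ℝ) ^ n1 * 36 ^ n2 = 36 ^ n := by rw [← pow_add, hnn]
    have h3 : (36 : ℝ) ≤ Real.exp 4 := by
      have h4 := Real.exp_one_gt_d9
      have h5 : Real.exp 4 = Real.exp 1 ^ 4 := by rw [← Real.exp_nat_mul]; norm_num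
      rw [h5]
      calc (36 : ℝ) ≤ 2.7 ^ 4 := by norm_num
        _ ≤ Real.exp 1 ^ 4 := pow_le_pow_left₀ (by norm_num) (by linarith) 4
    have h4 : (36 : ℝ) ^ n ≤ Real.exp 4 ^ n := pow_le_pow_left₀ (by norm_num) h3 n
    have h5 : Real.exp 4 ^ n = Real.exp (n * 4) := by rw [← Real.exp_nat_mul]
    have h6 : Real.exp ((n : ℝ) * 4) ≤ Real.exp (8 * K) := by
      apply Real.exp_le_exp.2
      linarith
    linarith
  rw [hfg z, hfg w0, norm_mul, norm_mul, ← hsplit, Pf_add, Pf_add, norm_mul, norm_mul]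
  calc ‖Pf sn z‖ * ‖Pf sf z‖ * ‖g z‖ ≤ (36 ^ n1 * ‖Pf sn w0‖) * (3 ^ n2 * ‖Pf sf w0‖) * (‖g w0‖ * Real.exp (60 * K)) := by
        gcongr
    _ = (36 ^ n1 * 3 ^ n2) * Real.exp (60 * K) * (‖Pf sn w0‖ * ‖Pf sf w0‖ * ‖g w0‖) := by ring
    _ ≤ Real.exp (8 * K) * Real.exp (60 * K) * (‖Pf sn w0‖ * ‖Pf sf w0‖ * ‖g w0‖) := by gcongr
    _ = _ := by
        rw [← Real.exp_add]
        congr 2
        ring

theorem cone2 {K : ℝ} (hK : 1 ≤ K) {f : ℂ → ℂ} (hf : Differentiable ℂ f) (h3 : f 3 = 1)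
    (hb : ∀ z : ℂ, ‖z‖ ≤ 14 → ‖f z‖ ≤ Real.exp K) {x0 y0 d y : ℝ} (hz : f (x0 + y0 * I) = 0) (h0 : 0 ≤ x0) (h1 : x0 ≤ 1)
    (hy0 : |y0| ≤ 1 / 2) (hd : 0 < d) (hd1 : d ≤ 1 / 4) (hy : |y - y0| ≤ d / (200 * K) ^ 2) :
    ∃ u : ℝ, x0 - d ≤ u ∧ u < x0 ∧ ‖f (x0 + y * I)‖ * Real.exp (K * (x0 - u)) < ‖f (u + y * I)‖ := by
  by_contra hcon
  push Not at hcon
  have hK0 : 0 < K := by linarith
  have hyd : |y - y0| ≤ d / 40000 := by
    refine hy.trans ?_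
    apply div_le_div_of_nonneg_left hd.le (by norm_num)
    nlinarith
  have hy1 : |y| ≤ 5 / 8 := by
    have h2 := abs_le.1 hyd
    have h3 := abs_le.1 hy0
    rw [abs_le]
    constructor <;> linarith
  obtain ⟨u, hu1, hu2, hu3, hgr⟩ := growth hK hf h3 hb h0 h1 hy1 hd hd1
  obtain ⟨w1, hw1⟩ : ∃ w1 : ℂ, w1 = x0 + y * I := ⟨_, rfl⟩
  rw [← hw1] at hgr hcon
  have hu4 := hcon u hu1 hu2
  have hf1 : 0 < ‖f w1‖ := by
    by_contra h2
    have h4 : ‖f w1‖ = 0 := le_antisymm (not_lt.1 h2) (norm_nonneg _)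
    rw [h4, zero_mul] at hu4
    linarith
  have hf1' : f w1 ≠ 0 := norm_pos_iff.1 hf1
  have hgr2 : ∀ z : ℂ, ‖z - w1‖ ≤ d → ‖f z‖ ≤ Real.exp (69 * K) * ‖f w1‖ := by
    intro z hz
    refine (hgr z hz).trans ?_
    have h4 : K * (x0 - u) ≤ K := by nlinarith
    calc Real.exp (68 * K) * ‖f (u + y * I)‖ ≤ Real.exp (68 * K) * (‖f w1‖ * Real.exp (K * (x0 - u))) := by gcongr
      _ ≤ Real.exp (68 * K) * (‖f w1‖ * Real.exp K) := by gcongr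
      _ = _ := by
          rw [mul_left_comm, ← Real.exp_add, mul_comm]
          congr 2
          ring
  obtain ⟨G, hG⟩ : ∃ G : ℂ → ℂ, G = fun q => f (w1 - d * q ^ 2) * Complex.exp (-(K * d * q ^ 2)) / f w1 := ⟨_, rfl⟩
  have hGd : Differentiable ℂ G := by
    rw [hG]
    have h2 : Differentiable ℂ (fun q : ℂ => f (w1 - d * q ^ 2)) := hf.comp (by fun_prop)
    have h4 : Differentiable ℂ (fun q : ℂ => Complex.exp (-(K * d * q ^ 2))) := by fun_prop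
    exact (h2.mul h4).div_const _
  have hGe : ∀ q, G (-q) = G q := by
    intro q
    rw [hG]
    simp only
    rw [neg_sq]
  have hG0 : G 0 = 1 := by
    rw [hG]
    simp [hf1']
  have hGr : ∀ x : ℝ, |x| ≤ 1 → ‖G x‖ ≤ 1 := by
    intro x hx
    rw [hG]
    simp only
    rw [norm_div, div_le_one hf1, norm_mul]
    have hx2 : x ^ 2 ≤ 1 := (sq_le_one_iff_abs_le_one x).2 hx
    have e1 : (-((K : ℂ) * d * (x : ℂ) ^ 2)) = ((-(K * (d * x ^ 2)) : ℝ) : ℂ) := by push_cast; ring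
    have e2 : w1 - d * (x : ℂ) ^ 2 = ((x0 - d * x ^ 2 : ℝ) : ℂ) + y * I := by
      rw [hw1]
      push_cast
      ring
    rw [e1, e2, Complex.norm_exp, Complex.ofReal_re]
    rcases eq_or_ne x 0 with h4 | h4
    · rw [h4]
      simp only [ne_eq, OfNat.ofNat_ne_zero, not_false_eq_true, zero_pow, mul_zero, sub_zero, neg_zero, Real.exp_zero, mul_one]
      rw [hw1]
    · have hx3 : 0 < x ^ 2 := by positivity
      have h5 := hcon (x0 - d * x ^ 2) (by nlinarith) (by nlinarith)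
      have e3 : K * (x0 - (x0 - d * x ^ 2)) = K * (d * x ^ 2) := by ring
      rw [e3] at h5
      calc ‖f (((x0 - d * x ^ 2 : ℝ) : ℂ) + y * I)‖ * Real.exp (-(K * (d * x ^ 2))) ≤
          (‖f w1‖ * Real.exp (K * (d * x ^ 2))) * Real.exp (-(K * (d * x ^ 2))) := by gcongr
        _ = ‖f w1‖ := by
            rw [mul_assoc, ← Real.exp_add, add_neg_cancel, Real.exp_zero, mul_one]
  have hGM : ∀ q : ℂ, ‖q‖ ≤ 1 → ‖G q‖ ≤ Real.exp (70 * K) := by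
    intro q hq
    rw [hG]
    simp only
    rw [norm_div, div_le_iff₀ hf1, norm_mul, Complex.norm_exp]
    have hq2 : ‖q ^ 2‖ ≤ 1 := by
      rw [norm_pow]
      exact pow_le_one₀ (norm_nonneg _) hq
    have h4 : ‖w1 - d * q ^ 2 - w1‖ ≤ d := by
      have e : w1 - d * q ^ 2 - w1 = -(d * q ^ 2) := by ring
      rw [e, norm_neg, norm_mul, Complex.norm_real, Real.norm_eq_abs, abs_of_pos hd]
      nlinarith
    have h5 := hgr2 _ h4
    have h6 : (-((K : ℂ) * d * q ^ 2)).re ≤ K := by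
      have h7 := Complex.re_le_norm (-((K : ℂ) * d * q ^ 2))
      rw [norm_neg, norm_mul, norm_mul, Complex.norm_real, Complex.norm_real, Real.norm_eq_abs, Real.norm_eq_abs,
        abs_of_pos hd, abs_of_pos hK0] at h7
      have h8 : K * d * ‖q ^ 2‖ ≤ K * 1 * 1 := by gcongr; linarith
      linarith
    calc ‖f (w1 - d * q ^ 2)‖ * Real.exp (-((K : ℂ) * d * q ^ 2)).re ≤ (Real.exp (69 * K) * ‖f w1‖) * Real.exp K := by gcongr
      _ = _ := by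
          rw [mul_right_comm, ← Real.exp_add]
          congr 2
          ring
  -- the zero
  have hne : y ≠ y0 := by
    intro h2
    apply hf1'
    rw [hw1, h2]
    exact hz
  obtain ⟨v, hv⟩ : ∃ v : ℝ, v = |y - y0| := ⟨_, rfl⟩
  have hv0 : 0 < v := by rw [hv]; exact abs_pos.2 (sub_ne_zero.2 hne)
  rw [← hv] at hy hyd
  obtain ⟨ρ, hρ⟩ : ∃ ρ : ℝ, ρ = Real.sqrt (v / (2 * d)) := ⟨_, rfl⟩
  have hρ2 : ρ ^ 2 = v / (2 * d) := by rw [hρ]; exact Real.sq_sqrt (by positivity)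
  have hρ0 : 0 < ρ := by rw [hρ]; exact Real.sqrt_pos.2 (by positivity)
  have hdρ : 2 * d * ρ ^ 2 = v := by rw [hρ2]; field_simp
  obtain ⟨e, he1, he2⟩ : ∃ e : ℝ, e ^ 2 = 1 ∧ v * e = y - y0 := by
    rcases le_or_gt y y0 with h2 | h2
    · refine ⟨-1, by norm_num, ?_⟩
      rw [hv, abs_of_nonpos (by linarith)]
      ring
    · refine ⟨1, by norm_num, ?_⟩
      rw [hv, abs_of_pos (by linarith)]
      ring
  obtain ⟨q0, hq0⟩ : ∃ q0 : ℂ, q0 = ρ * (e + I) := ⟨_, rfl⟩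
  have hq0im : q0.im = ρ := by rw [hq0]; simp
  have hq0re : q0.re = ρ * e := by rw [hq0]; simp
  have hq0n : ‖q0‖ ^ 2 = 2 * ρ ^ 2 := by
    rw [Complex.sq_norm, Complex.normSq_apply, hq0re, hq0im]
    nlinarith
  have hq0s : d * q0 ^ 2 = ((y - y0 : ℝ) : ℂ) * I := by
    have h2 : q0 ^ 2 = ((2 * ρ ^ 2 * e : ℝ) : ℂ) * I := by
      have he1' : (e : ℂ) ^ 2 = 1 := by exact_mod_cast he1
      rw [hq0]
      push_cast
      linear_combination ((ρ : ℂ) ^ 2) * he1' + ((ρ : ℂ) ^ 2) * Complex.I_sq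
    rw [h2, ← he2, ← hdρ]
    push_cast
    ring
  have hGz : G q0 = 0 := by
    rw [hG]
    simp only
    rw [hq0s]
    have e4 : w1 - ((y - y0 : ℝ) : ℂ) * I = x0 + y0 * I := by
      rw [hw1]
      push_cast
      ring
    rw [e4, hz, zero_mul, zero_div]
  have hq0q : ‖q0‖ ≤ 1 / 4 := by
    have h2 : ‖q0‖ ^ 2 ≤ (1 / 4) ^ 2 := by
      rw [hq0n]
      have : 2 * ρ ^ 2 = v / d := by rw [hρ2]; field_simp
      rw [this, div_le_iff₀ hd]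
      linarith
    exact (sq_le_sq₀ (norm_nonneg _) (by norm_num)).1 h2
  obtain ⟨m, hm⟩ : ∃ m : ℕ, m = ⌈70 * K + 1⌉₊ := ⟨_, rfl⟩
  have hm1 : 70 * K + 1 ≤ m := by rw [hm]; exact Nat.le_ceil _
  have hm2 : (m : ℝ) ≤ 72 * K := by
    have h2 := Nat.ceil_lt_add_one (show 0 ≤ 70 * K + 1 by positivity)
    rw [← hm] at h2
    linarith
  have hfin := half hGd hGe hG0 hGr hGM hm1 (q0 := q0) (by rw [hq0im]; exact hρ0) hq0q hGz
  rw [hq0im, hq0n] at hfin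
  have h5 : 1 ≤ 2 * m * ρ := by
    have h6 : ρ * 1 ≤ ρ * (2 * m * ρ) := by
      calc ρ * 1 = ρ := mul_one _
        _ ≤ m * (2 * ρ ^ 2) := hfin
        _ = _ := by ring
    exact le_of_mul_le_mul_left h6 hρ0
  have h6 : (1 : ℝ) ≤ (2 * m * ρ) ^ 2 := one_le_pow₀ h5
  have h7 : (2 * m * ρ) ^ 2 = 2 * m ^ 2 * (v / d) := by
    rw [mul_pow, mul_pow, hρ2]
    field_simp
  rw [h7] at h6
  have h8 : v / d ≤ 1 / (200 * K) ^ 2 := by
    rw [div_le_iff₀ hd]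
    calc v ≤ d / (200 * K) ^ 2 := hy
      _ = _ := by ring
  have h9 : 2 * (m : ℝ) ^ 2 * (v / d) ≤ 2 * (72 * K) ^ 2 * (1 / (200 * K) ^ 2) := by gcongr
  have h10 : 2 * (72 * K) ^ 2 * (1 / (200 * K) ^ 2) = 2 * 72 ^ 2 / 200 ^ 2 := by
    field_simp
  rw [h10] at h9
  norm_num at h9
  linarith

end Pool.Agent.Zk5.HR4
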