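import Mathlib

set_option autoImplicit false

/-! # A lemma on the half-disc

An even function that is bounded by its value at `0` on the real diameter cannot vanish near `0`. -/

namespace Pool.Agent.Zk5.HR4

open Complex Metric Set Filter Topology

theorem deriv_even {G : ℂ → ℂ} (hG : Differentiable ℂ G) (he : ∀ q, G (-q) = G q) : deriv G 0 = 0 := by
  have h1 : (fun q => G (-q)) = G := funext he
  have h2 : deriv (fun q => G (-q)) 0 = -deriv G (-0) := deriv_comp_neg G 0
  rw [h1, neg_zero] at h2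
  have h3 : (2 : ℂ) * deriv G 0 = 0 := by linear_combination h2
  exact (mul_eq_zero.1 h3).resolve_left two_ne_zero

/-- the derivative at the boundary point -/
theorem slope_le {g : ℝ → ℝ} {g' δ : ℝ} (hδ : 0 < δ) (h0 : g 0 = 0) (hd : HasDerivAt g g' 0)
    (h : ∀ v : ℝ, 0 < v → v < δ → g v ≤ 0) : g' ≤ 0 := by
  have h1 := hd.tendsto_slope_zero_right
  refine le_of_tendsto h1 ?_
  have h2 : Ioo (0 : ℝ) δ ∈ 𝓝[>] (0 : ℝ) := Ioo_mem_nhdsGT hδ
  filter_upwards [h2] with v hv
  rw [zero_add, h0, sub_zero, smul_eq_mul]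
  exact mul_nonpos_of_nonneg_of_nonpos (inv_nonneg.2 hv.1.le) (h v hv.1 hv.2)

theorem half {G : ℂ → ℂ} (hG : Differentiable ℂ G) (he : ∀ q, G (-q) = G q) (h0 : G 0 = 1) {M : ℝ}
    (h1 : ∀ x : ℝ, |x| ≤ 1 → ‖G x‖ ≤ 1) (hM : ∀ q : ℂ, ‖q‖ ≤ 1 → ‖G q‖ ≤ Real.exp M) {m : ℕ} (hm : M + 1 ≤ m)
    {q0 : ℂ} (hq0 : 0 < q0.im) (hq1 : ‖q0‖ ≤ 1 / 4) (hz : G q0 = 0) : q0.im ≤ m * ‖q0‖ ^ 2 := by
  obtain ⟨G1, hG1⟩ : ∃ G1 : ℂ → ℂ, G1 = dslope G q0 := ⟨_, rfl⟩
  have hG1d : Differentiable ℂ G1 := by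
    rw [hG1]
    intro z
    have h2 : DifferentiableOn ℂ (dslope G q0) univ :=
      (Complex.differentiableOn_dslope (by simp)).2 hG.differentiableOn
    exact (h2 z (mem_univ z)).differentiableAt (by simp)
  have hGG : ∀ q, G q = (q - q0) * G1 q := by
    intro q
    have h2 := sub_smul_dslope G q0 q
    rw [hz, sub_zero, smul_eq_mul, ← hG1] at h2
    exact h2.symm
  obtain ⟨P, hP⟩ : ∃ P : ℂ → ℂ, P = fun q => G1 q * (q - (starRingEnd ℂ) q0) * (1 - q ^ 2) ^ m * Complex.exp (2 * m * I * q) :=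
    ⟨_, rfl⟩
  have hPd : Differentiable ℂ P := by
    rw [hP]
    fun_prop
  have hnz : ∀ q : ℂ, ‖q‖ = 1 → 0 < ‖q - q0‖ := by
    intro q hq
    have h2 := norm_sub_norm_le q q0
    linarith
  -- the values of P
  have hPn : ∀ q : ℂ, q ≠ q0 → ‖P q‖ = ‖G q‖ * (‖q - (starRingEnd ℂ) q0‖ / ‖q - q0‖) * ‖1 - q ^ 2‖ ^ m *
      Real.exp (-(2 * m * q.im)) := by
    intro q hq
    have h2 : 0 < ‖q - q0‖ := norm_pos_iff.2 (sub_ne_zero.2 hq)
    rw [hP]
    simp only
    rw [norm_mul, norm_mul, norm_mul, norm_pow, Complex.norm_exp, hGG q, norm_mul]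
    have h3 : (2 * (m : ℂ) * I * q).re = -(2 * m * q.im) := by
      simp
    rw [h3]
    field_simp
  obtain ⟨U, hU⟩ : ∃ U : Set ℂ, U = ball (0 : ℂ) 1 ∩ {z : ℂ | 0 < z.im} := ⟨_, rfl⟩
  have hUo : IsOpen U := by
    rw [hU]
    exact isOpen_ball.inter (isOpen_lt continuous_const Complex.continuous_im)
  have hUb : Bornology.IsBounded U := by
    rw [hU]
    exact isBounded_ball.subset inter_subset_left
  have hfr : ∀ z ∈ frontier U, ‖P z‖ ≤ 1 := by
    intro z hz'
    have hcl : z ∈ closure U := frontier_subset_closure hz'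
    have hnU : z ∉ U := by
      rw [hUo.frontier_eq] at hz'
      exact hz'.2
    have hz1 : ‖z‖ ≤ 1 := by
      have h2 : closure U ⊆ closedBall (0 : ℂ) 1 := by
        rw [hU]
        exact (closure_mono inter_subset_left).trans closure_ball_subset_closedBall
      simpa using h2 hcl
    have hz2 : 0 ≤ z.im := by
      have h2 : closure U ⊆ {z : ℂ | 0 ≤ z.im} := by
        rw [hU]
        refine closure_minimal ?_ (isClosed_le continuous_const Complex.continuous_im)
        rintro w ⟨_, hw⟩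
        have h3 : 0 < w.im := hw
        exact h3.le
      exact h2 hcl
    rcases hz1.lt_or_eq with h2 | h2
    · -- real points
      have h3 : z.im = 0 := by
        by_contra h4
        apply hnU
        rw [hU]
        refine ⟨by simpa using h2, ?_⟩
        exact lt_of_le_of_ne hz2 (Ne.symm h4)
      have e : z = ((z.re : ℝ) : ℂ) := by
        apply Complex.ext
        · simp
        · simp [h3]
      have hne : z ≠ q0 := by
        intro h4
        rw [← h4, h3] at hq0
        exact lt_irrefl _ hq0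
      rw [hPn z hne, h3, mul_zero, neg_zero, Real.exp_zero, mul_one]
      have h4 : ‖z - (starRingEnd ℂ) q0‖ = ‖z - q0‖ := by
        have h5 : z - (starRingEnd ℂ) q0 = (starRingEnd ℂ) (z - q0) := by
          rw [map_sub]
          congr 1
          rw [e, Complex.conj_ofReal]
        rw [h5, Complex.norm_conj]
      have h5 : 0 < ‖z - q0‖ := norm_pos_iff.2 (sub_ne_zero.2 hne)
      rw [h4, div_self h5.ne', mul_one]
      have h6 : |z.re| ≤ 1 := (Complex.abs_re_le_norm z).trans hz1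
      have h7 : ‖G z‖ ≤ 1 := by
        rw [e]
        exact h1 _ h6
      have h8 : ‖1 - z ^ 2‖ ≤ 1 := by
        rw [e]
        have h9 : (1 - ((z.re : ℝ) : ℂ) ^ 2) = ((1 - z.re ^ 2 : ℝ) : ℂ) := by push_cast; ring
        rw [h9, Complex.norm_real, Real.norm_eq_abs, abs_le]
        have h10 := abs_le.1 h6
        constructor <;> nlinarith
      calc ‖G z‖ * ‖1 - z ^ 2‖ ^ m ≤ 1 * 1 := by
            apply mul_le_mul h7 (pow_le_one₀ (norm_nonneg _) h8) (by positivity) zero_le_one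
        _ = 1 := one_mul 1
    · -- points of the circle
      have h3 : 0 < ‖z - q0‖ := hnz z h2
      have hne : z ≠ q0 := sub_ne_zero.1 (norm_pos_iff.1 h3)
      rw [hPn z hne]
      have h4 : ‖G z‖ ≤ Real.exp M := hM z hz1
      have h5 : ‖z - (starRingEnd ℂ) q0‖ ≤ 5 / 4 := by
        refine (norm_sub_le _ _).trans ?_
        rw [Complex.norm_conj]
        linarith
      have h6 : 3 / 4 ≤ ‖z - q0‖ := by
        have := norm_sub_norm_le z q0
        linarith
      have h7 : ‖z - (starRingEnd ℂ) q0‖ / ‖z - q0‖ ≤ Real.exp 1 := by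
        rw [div_le_iff₀ h3]
        have := Real.exp_one_gt_d9
        nlinarith
      have h8 : ‖1 - z ^ 2‖ = 2 * z.im := by
        have h9 : ‖1 - z ^ 2‖ ^ 2 = (2 * z.im) ^ 2 := by
          have h10 : z.re ^ 2 + z.im ^ 2 = 1 := by
            have := Complex.sq_norm z
            rw [h2, Complex.normSq_apply] at this
            linarith
          rw [Complex.sq_norm, Complex.normSq_apply]
          have e1 : (1 - z ^ 2).re = 2 * z.im ^ 2 := by
            rw [pow_two]
            simp only [sub_re, one_re, mul_re]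
            nlinarith
          have e2 : (1 - z ^ 2).im = -(2 * z.re * z.im) := by
            rw [pow_two]
            simp only [sub_im, one_im, mul_im]
            ring
          rw [e1, e2]
          have : 2 * z.im ^ 2 * (2 * z.im ^ 2) + -(2 * z.re * z.im) * -(2 * z.re * z.im) =
              4 * z.im ^ 2 * (z.re ^ 2 + z.im ^ 2) := by ring
          rw [this, h10]
          ring
        have h10 := (sq_eq_sq₀ (norm_nonneg _) (by positivity : (0 : ℝ) ≤ 2 * z.im)).1 h9
        exact h10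
      rw [h8]
      have h9 : 2 * z.im * Real.exp (-(2 * z.im)) * Real.exp 1 ≤ 1 := by
        have h10 := Real.add_one_le_exp (2 * z.im - 1)
        have h11 : 2 * z.im ≤ Real.exp (2 * z.im - 1) := by linarith
        calc 2 * z.im * Real.exp (-(2 * z.im)) * Real.exp 1 ≤
            Real.exp (2 * z.im - 1) * Real.exp (-(2 * z.im)) * Real.exp 1 := by gcongr
          _ = 1 := by
            rw [← Real.exp_add, ← Real.exp_add]
            rw [show 2 * z.im - 1 + -(2 * z.im) + 1 = 0 by ring, Real.exp_zero]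
      have h10 : Real.exp M * Real.exp 1 ≤ Real.exp 1 ^ m := by
        rw [← Real.exp_add, ← Real.exp_nat_mul, mul_one]
        exact Real.exp_le_exp.2 hm
      have h11 : Real.exp (-(2 * m * z.im)) = Real.exp (-(2 * z.im)) ^ m := by
        rw [← Real.exp_nat_mul]
        congr 1
        ring
      rw [h11]
      calc ‖G z‖ * (‖z - (starRingEnd ℂ) q0‖ / ‖z - q0‖) * (2 * z.im) ^ m * Real.exp (-(2 * z.im)) ^ m ≤
          Real.exp M * Real.exp 1 * (2 * z.im) ^ m * Real.exp (-(2 * z.im)) ^ m := by gcongr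
        _ ≤ Real.exp 1 ^ m * (2 * z.im) ^ m * Real.exp (-(2 * z.im)) ^ m := by gcongr
        _ = (2 * z.im * Real.exp (-(2 * z.im)) * Real.exp 1) ^ m := by
            rw [mul_pow, mul_pow]
            ring
        _ ≤ 1 := pow_le_one₀ (by positivity) h9
  have hin : ∀ v : ℝ, 0 < v → v < 1 → ‖P (I * v)‖ ≤ 1 := by
    intro v hv0 hv1
    refine Complex.norm_le_of_forall_mem_frontier_norm_le (U := U) hUb ?_ hfr ?_
    · exact hPd.diffContOnCl
    · apply subset_closure
      rw [hU]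
      refine ⟨?_, ?_⟩
      · rw [mem_ball, dist_zero_right, norm_mul, Complex.norm_I, one_mul, Complex.norm_real, Real.norm_eq_abs,
          abs_of_pos hv0]
        exact hv1
      · simp [hv0]
  -- the derivative
  obtain ⟨N, hN⟩ : ∃ N : ℝ, N = ‖q0‖ ^ 2 := ⟨_, rfl⟩
  have hNe : N = q0.re ^ 2 + q0.im ^ 2 := by
    rw [hN, Complex.sq_norm, Complex.normSq_apply]
    ring
  have hN0 : 0 < N := by
    rw [hNe]
    positivity
  obtain ⟨g, hg⟩ : ∃ g : ℝ → ℝ, g = fun v : ℝ => ‖G (I * v)‖ ^ 2 * (N + v ^ 2 + 2 * q0.im * v) * (1 + v ^ 2) ^ (2 * m) -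
      (N + v ^ 2 - 2 * q0.im * v) * Real.exp (4 * m * v) := ⟨_, rfl⟩
  have hg0 : g 0 = 0 := by
    rw [hg]
    simp [h0]
  have hgd : HasDerivAt g (4 * q0.im - 4 * m * N) 0 := by
    rw [hg]
    have a1 : HasDerivAt (fun v : ℝ => G (I * v)) 0 0 := by
      have a2 : HasDerivAt G (deriv G 0) ((fun v : ℝ => I * (v : ℂ)) 0) := by
        simp only [ofReal_zero, mul_zero]
        exact (hG 0).hasDerivAt
      have a3 : HasDerivAt (fun v : ℝ => I * (v : ℂ)) (I * 1) 0 := by
        exact (Complex.ofRealCLM.hasDerivAt (x := (0 : ℝ))).const_mul I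
      have a4 := HasDerivAt.comp (0 : ℝ) a2 a3
      rw [deriv_even hG he, zero_mul] at a4
      exact a4
    have a2 := a1.norm_sq
    rw [inner_zero_right, mul_zero] at a2
    have b1 : HasDerivAt (fun v : ℝ => N + v ^ 2 + 2 * q0.im * v) (2 * q0.im) 0 := by
      have h2 := (((hasDerivAt_id (0 : ℝ)).pow 2).const_add N).add ((hasDerivAt_id (0 : ℝ)).const_mul (2 * q0.im))
      simp at h2
      exact h2
    have b2 : HasDerivAt (fun v : ℝ => N + v ^ 2 - 2 * q0.im * v) (-(2 * q0.im)) 0 := by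
      have h2 := (((hasDerivAt_id (0 : ℝ)).pow 2).const_add N).sub ((hasDerivAt_id (0 : ℝ)).const_mul (2 * q0.im))
      simp at h2
      exact h2
    have b3 : HasDerivAt (fun v : ℝ => (1 + v ^ 2) ^ (2 * m)) 0 0 := by
      have h2 := (((hasDerivAt_id (0 : ℝ)).pow 2).const_add 1).pow (2 * m)
      simp at h2
      exact h2
    have b4 : HasDerivAt (fun v : ℝ => Real.exp (4 * m * v)) (4 * m) 0 := by
      have h2 := ((hasDerivAt_id (0 : ℝ)).const_mul (4 * (m : ℝ))).exp
      simp at h2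
      exact h2
    have c1 := ((a2.mul b1).mul b3).sub (b2.mul b4)
    have e : 4 * q0.im - 4 * m * N = (0 * (N + (0:ℝ) ^ 2 + 2 * q0.im * 0) + ‖G (I * ((0 : ℝ) : ℂ))‖ ^ 2 * (2 * q0.im)) * (1 + (0:ℝ) ^ 2) ^ (2 * m) +
        ‖G (I * ((0 : ℝ) : ℂ))‖ ^ 2 * (N + (0:ℝ) ^ 2 + 2 * q0.im * 0) * 0 -
        (-(2 * q0.im) * Real.exp (4 * m * 0) + (N + (0:ℝ) ^ 2 - 2 * q0.im * 0) * (4 * m)) := by
      simp [h0]
      ring
    rw [e]
    exact c1
  have hfin := slope_le (δ := min 1 ‖q0‖) (lt_min one_pos (by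
      rw [norm_pos_iff]
      intro h2
      rw [h2] at hq0
      simp at hq0)) hg0 hgd (by
    intro v hv0 hv1
    have hv2 : v < 1 := hv1.trans_le (min_le_left _ _)
    have hv3 : v < ‖q0‖ := hv1.trans_le (min_le_right _ _)
    have hne : (I * (v : ℂ)) ≠ q0 := by
      intro h2
      rw [← h2, norm_mul, Complex.norm_I, one_mul, Complex.norm_real, Real.norm_eq_abs, abs_of_pos hv0] at hv3
      exact lt_irrefl _ hv3
    have h2 := hin v hv0 hv2
    rw [hPn _ hne] at h2
    have h3 : 0 < ‖I * (v : ℂ) - q0‖ := norm_pos_iff.2 (sub_ne_zero.2 hne)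
    have e1 : ‖I * (v : ℂ) - (starRingEnd ℂ) q0‖ ^ 2 = N + v ^ 2 + 2 * q0.im * v := by
      rw [Complex.sq_norm, Complex.normSq_apply, hNe]
      simp
      ring
    have e2 : ‖I * (v : ℂ) - q0‖ ^ 2 = N + v ^ 2 - 2 * q0.im * v := by
      rw [Complex.sq_norm, Complex.normSq_apply, hNe]
      simp
      ring
    have e3 : ‖1 - (I * (v : ℂ)) ^ 2‖ = 1 + v ^ 2 := by
      have h4 : 1 - (I * (v : ℂ)) ^ 2 = ((1 + v ^ 2 : ℝ) : ℂ) := by
        rw [mul_pow, I_sq]
        push_cast
        ring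
      rw [h4, Complex.norm_real, Real.norm_eq_abs, abs_of_pos (by positivity)]
    have e4 : (I * (v : ℂ)).im = v := by simp
    rw [e3, e4] at h2
    have h4 : ‖G (I * v)‖ * ‖I * (v : ℂ) - (starRingEnd ℂ) q0‖ * (1 + v ^ 2) ^ m ≤ ‖I * (v : ℂ) - q0‖ * Real.exp (2 * m * v) := by
      have h5 : ‖G (I * v)‖ * ‖I * (v : ℂ) - (starRingEnd ℂ) q0‖ * (1 + v ^ 2) ^ m =
          (‖G (I * v)‖ * (‖I * (v : ℂ) - (starRingEnd ℂ) q0‖ / ‖I * (v : ℂ) - q0‖) * (1 + v ^ 2) ^ m * Real.exp (-(2 * m * v))) *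
          (‖I * (v : ℂ) - q0‖ * Real.exp (2 * m * v)) := by
        rw [Real.exp_neg]
        field_simp
      rw [h5]
      calc _ ≤ 1 * (‖I * (v : ℂ) - q0‖ * Real.exp (2 * m * v)) := mul_le_mul_of_nonneg_right h2 (by positivity)
        _ = _ := one_mul _
    have h5 := pow_le_pow_left₀ (by positivity) h4 2
    rw [mul_pow, mul_pow, mul_pow, e1, e2, ← pow_mul, mul_comm m 2, ← Real.exp_nat_mul] at h5
    have e5 : ((2 : ℕ) : ℝ) * (2 * m * v) = 4 * m * v := by push_cast; ring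
    rw [e5] at h5
    rw [hg]
    simp only
    linarith)
  rw [← hN]
  linarith

end Pool.Agent.Zk5.HR4
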