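import Pool.Agent.Zk5.HR4.Cone2

set_option autoImplicit false

/-! # The local lemma for functions with controlled growth -/

namespace Pool.Agent.Zk5.HR4

open Complex Metric Set H370 H370.Loc
open Pool.Agent.H24R2.DZ
open Pool.Agent.Zk5.HR

theorem loc2 : ∃ c : ℝ, 0 < c ∧ c ≤ 1 ∧ ∀ a η : ℝ, 1 ≤ a → η ≤ 1 →
    ∀ F : ℂ → ℂ, NN a η F → ∀ z0 : ℂ, F z0 = 0 → 0 < z0.re → z0.re ≤ 1 / 2 → |z0.im| ≤ 1 / 2 →
    ∀ y : ℝ, |y - z0.im| ≤ c * z0.re / a ^ 2 → ∃ x : ℝ, 0 ≤ x ∧ x < z0.re ∧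
      ‖F (z0.re + y * I)‖ * Real.exp (4 * a * (z0.re - x)) < ‖F (x + y * I)‖ := by
  refine ⟨1 / 10 ^ 8, by norm_num, by norm_num, ?_⟩
  intro a η ha hη F hN z0 hz0 hre0 hre1 him y hy
  have ha0 : 0 ≤ a := by linarith
  have h30 : F 3 ≠ 0 := (hN.far 3 (by simp; norm_num) (by simp; norm_num)).1
  have h3p : 0 < ‖F 3‖ := norm_pos_iff.2 h30
  have hbig := Pool.Agent.W32.SD.big ha0 hη hN
  obtain ⟨f, hf⟩ : ∃ f : ℂ → ℂ, f = fun z => F z / F 3 := ⟨_, rfl⟩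
  have hfd : Differentiable ℂ f := by rw [hf]; exact hN.diff.div_const _
  have hf3 : f 3 = 1 := by rw [hf]; exact div_self h30
  have hfb : ∀ z : ℂ, ‖z‖ ≤ 14 → ‖f z‖ ≤ Real.exp (34 * a) := by
    intro z hz
    rw [hf]
    simp only
    rw [norm_div, div_le_iff₀ h3p, mul_comm]
    exact hbig z hz
  have hz : f ((z0.re : ℂ) + z0.im * I) = 0 := by
    rw [Complex.re_add_im, hf]
    simp only
    rw [hz0, zero_div]
  have hy2 : |y - z0.im| ≤ (z0.re / 2) / (200 * (34 * a)) ^ 2 := by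
    refine hy.trans ?_
    rw [div_div, one_div, inv_mul_eq_div, div_div]
    apply div_le_div_of_nonneg_left hre0.le (by positivity)
    nlinarith [mul_pos (show 0 < a by linarith) (show 0 < a by linarith)]
  obtain ⟨u, hu1, hu2, hu3⟩ := cone2 (K := 34 * a) (by linarith) hfd hf3 hfb (x0 := z0.re) (y0 := z0.im) (d := z0.re / 2)
    (y := y) hz hre0.le (by linarith) him (by linarith) (by linarith) hy2
  refine ⟨u, by linarith, hu2, ?_⟩
  have e1 : ∀ w, ‖f w‖ = ‖F w‖ / ‖F 3‖ := by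
    intro w
    rw [hf]
    simp only
    rw [norm_div]
  rw [e1, e1, div_mul_eq_mul_div, div_lt_div_iff_of_pos_right h3p] at hu3
  refine lt_of_le_of_lt ?_ hu3
  apply mul_le_mul_of_nonneg_left _ (norm_nonneg _)
  apply Real.exp_le_exp.2
  nlinarith

end Pool.Agent.Zk5.HR4
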