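import Pool.Agent.Zk5.HR.Qs
import Pool.Agent.Zk5.HR4.LocH

set_option autoImplicit false

/-! # The sum of the distances over a block, with a polynomial dependence on the scale -/

namespace Pool.Agent.Zk5.HR4

open Complex Filter Topology MeasureTheory Set
open Pool.Agent.H24R2.JP (XX)
open Pool.Agent.H24R2.DZ
open Pool.Agent.W571.SD
open Pool.Agent.TH850.UR
open Pool.Agent.Zk5.HR
open Pool.Agent.Zk4
open H370 (Zf mult good_zeta)

/-- intervals of variable length -/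
theorem cover2 {S : Finset ℂ} {w δ : ℂ → ℝ} {E : Set ℝ} {V M : ℝ} (hw : ∀ s ∈ S, 0 ≤ w s) (hδ : ∀ s ∈ S, 0 ≤ δ s)
    (hV : 0 ≤ V) (hM : 0 ≤ M) (hE : ∀ s ∈ S, Icc (s.im - δ s) (s.im + δ s) ⊆ E) (hvol : volume E ≤ ENNReal.ofReal V)
    (hov : ∀ t : ℝ, ∑ s ∈ S.filter (fun s => |t - s.im| ≤ δ s), w s ≤ M) :
    ∑ s ∈ S, w s * (2 * δ s) ≤ M * V := by
  classical
  obtain ⟨U, hU⟩ : ∃ U : Set ℝ, U = ⋃ s ∈ S, Icc (s.im - δ s) (s.im + δ s) := ⟨_, rfl⟩
  have hUm : MeasurableSet U := by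
    rw [hU]
    exact Finset.measurableSet_biUnion _ fun s _ => measurableSet_Icc
  have hUsub : U ⊆ E := by
    rw [hU]
    exact iUnion₂_subset hE
  have hpt : ∀ t : ℝ, ∑ s ∈ S, (Icc (s.im - δ s) (s.im + δ s)).indicator (fun _ => ENNReal.ofReal (w s)) t ≤
      U.indicator (fun _ => ENNReal.ofReal M) t := by
    intro t
    by_cases htU : t ∈ U
    · rw [indicator_of_mem htU]
      have h2 : ∀ s ∈ S, (Icc (s.im - δ s) (s.im + δ s)).indicator (fun _ => ENNReal.ofReal (w s)) t =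
          if |t - s.im| ≤ δ s then ENNReal.ofReal (w s) else 0 := by
        intro s _
        rw [indicator_apply]
        congr 1
        rw [mem_Icc, abs_le]
        apply propext
        constructor
        · rintro ⟨h3, h4⟩
          constructor <;> linarith
        · rintro ⟨h3, h4⟩
          constructor <;> linarith
      rw [Finset.sum_congr rfl h2, ← Finset.sum_filter, ← ENNReal.ofReal_sum_of_nonneg fun s hs =>
        hw s (Finset.mem_filter.1 hs).1]
      exact ENNReal.ofReal_le_ofReal (hov t)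
    · rw [indicator_of_notMem htU]
      apply le_of_eq
      apply Finset.sum_eq_zero
      intro s hs
      rw [indicator_of_notMem]
      intro h1
      apply htU
      rw [hU, mem_iUnion₂]
      exact ⟨s, hs, h1⟩
  have hlint : ∑ s ∈ S, ENNReal.ofReal (w s) * ENNReal.ofReal (2 * δ s) ≤ ENNReal.ofReal M * ENNReal.ofReal V := by
    have h1 := lintegral_mono (μ := volume) hpt
    rw [lintegral_finset_sum _ fun s _ => measurable_const.indicator measurableSet_Icc,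
      lintegral_indicator_const hUm] at h1
    have h2 : ∀ s ∈ S, ∫⁻ t, (Icc (s.im - δ s) (s.im + δ s)).indicator (fun _ => ENNReal.ofReal (w s)) t =
        ENNReal.ofReal (w s) * ENNReal.ofReal (2 * δ s) := by
      intro s _
      rw [lintegral_indicator_const measurableSet_Icc, Real.volume_Icc]
      congr 2
      ring
    rw [Finset.sum_congr rfl h2] at h1
    exact h1.trans (mul_le_mul_right ((measure_mono hUsub).trans hvol) _)
  have h1 : ∑ s ∈ S, ENNReal.ofReal (w s) * ENNReal.ofReal (2 * δ s) = ENNReal.ofReal (∑ s ∈ S, w s * (2 * δ s)) := by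
    rw [ENNReal.ofReal_sum_of_nonneg fun s hs => mul_nonneg (hw s hs) (by linarith [hδ s hs])]
    refine Finset.sum_congr rfl fun s hs => ?_
    rw [ENNReal.ofReal_mul (hw s hs)]
  rw [h1, ← ENNReal.ofReal_mul hM] at hlint
  exact (ENNReal.ofReal_le_ofReal_iff (mul_nonneg hM hV)).1 hlint

/-- a zero near a good height -/
theorem nearq2 {η T T0 c : ℝ} {n : ℕ} {B : Set ℝ} {s : ℂ} (_hc0 : 0 < c) (hc1 : c ≤ 1)
    (hloc : ∀ a η : ℝ, 1 ≤ a → η ≤ 1 →
      ∀ F : ℂ → ℂ, NN a η F → ∀ z0 : ℂ, F z0 = 0 → 0 < z0.re → z0.re ≤ 1 / 2 → |z0.im| ≤ 1 / 2 →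
      ∀ y : ℝ, |y - z0.im| ≤ c * z0.re / a ^ 2 → ∃ x : ℝ, 0 ≤ x ∧ x < z0.re ∧
      ‖F (z0.re + y * I)‖ * Real.exp (4 * a * (z0.re - x)) < ‖F (x + y * I)‖)
    (hη : η ≤ 1) (hn : 1 ≤ n) (hT : 2 ≤ T) (hL : (n : ℝ) ≤ Real.log T / 400)
    (hB : ∀ t : ℝ, T0 ≤ t → ∀ u1 u2 q : ℝ, 0 ≤ u2 → u2 < u1 → u1 ≤ 1 →
      0 ≤ q → Real.log t * (u1 - u2) ≤ q → ‖XX (I * t + u1)‖ * Real.exp q < ‖XX (I * t + u2)‖ → t ∈ B)
    (hT0 : 2 * T0 ≤ T)
    (hs : XX s = 0) (hre : s.re ≠ 0) (him1 : T < s.im) (him2 : s.im ≤ 2 * T)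
    (hG : GJ η T n 0 s.im) (hre2 : |s.re| < ra T n / 1000) :
    Icc (s.im - c * |s.re| / n ^ 2) (s.im + c * |s.re| / n ^ 2) ⊆ B ∩ Icc (T / 2) (3 * T) := by
  intro t ht
  have hn1 : (1 : ℝ) ≤ n := by exact_mod_cast hn
  obtain ⟨L, hLd⟩ : ∃ L : ℝ, L = Real.log T := ⟨_, rfl⟩
  rw [← hLd] at hL
  have hL400 : 400 ≤ L := by linarith
  have hL0 : 0 < L := by linarith
  obtain ⟨r, hr⟩ : ∃ r : ℝ, r = ra T n := ⟨_, rfl⟩
  have hrn : r = 2 * n / L := by rw [hr, hLd]; exact ra_eq _ _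
  have hr0 : 0 < r := by rw [hrn]; positivity
  have hr1 : r ≤ 1 / 200 := by rw [hrn, div_le_iff₀ hL0]; linarith
  obtain ⟨t', ht', hN⟩ := hG
  rw [pow_zero, one_mul, ← hr] at ht' hN
  rw [← hr] at hre2
  have hre0 : 0 < |s.re| := abs_pos.2 hre
  obtain ⟨δ, hδ⟩ : ∃ δ : ℝ, δ = c * |s.re| / n ^ 2 := ⟨_, rfl⟩
  rw [← hδ] at ht
  have hδre : δ ≤ |s.re| := by
    rw [hδ, div_le_iff₀ (by positivity)]
    have : (1 : ℝ) ≤ n ^ 2 := one_le_pow₀ hn1
    calc c * |s.re| ≤ 1 * |s.re| := by gcongr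
      _ ≤ |s.re| * n ^ 2 := by nlinarith
  have hδr : δ ≤ r / 100 := by linarith
  have htL : Real.log t ≤ 2 * L := by
    have h1 : Real.log t ≤ Real.log (3 * T) := Real.log_le_log (by linarith [ht.1]) (by linarith [ht.2])
    rw [Real.log_mul (by norm_num) (by linarith), ← hLd] at h1
    have h2 : Real.log 3 ≤ 2 := by
      have := Real.log_le_sub_one_of_pos (show (0 : ℝ) < 3 by norm_num)
      linarith
    linarith
  refine ⟨?_, by constructor <;> linarith [ht.1, ht.2]⟩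
  obtain ⟨X, hX⟩ : ∃ X : ℝ, X = |s.re| / r := ⟨_, rfl⟩
  have hXr : r * X = |s.re| := by rw [hX]; field_simp
  have hX1 : X ≤ 1 / 1000 := by
    rw [hX, div_le_iff₀ hr0]; linarith
  have hXp : 0 < X := by
    rw [hX]
    exact div_pos hre0 hr0
  obtain ⟨y0, hy0⟩ : ∃ y0 : ℝ, y0 = (s.im - t') / r := ⟨_, rfl⟩
  have hy0r : r * y0 = s.im - t' := by rw [hy0]; field_simp
  have hy01 : |y0| ≤ 1 / 100 := by
    rw [hy0, abs_div, abs_of_pos hr0, div_le_iff₀ hr0]; linarith
  obtain ⟨F, hF⟩ : ∃ F : ℂ → ℂ, F = fun z => XX (I * t' + r * z) := ⟨_, rfl⟩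
  rw [← hF] at hN
  -- the zero
  have hz0 : F ⟨X, y0⟩ = 0 := by
    rcases le_or_gt 0 s.re with h0 | h0
    · have e : (I * (t' : ℂ) + (r : ℂ) * (⟨X, y0⟩ : ℂ)) = s := by
        apply Complex.ext
        · simp only [add_re, mul_re, I_re, ofReal_re, I_im, ofReal_im]
          rw [abs_of_nonneg h0] at hXr
          linarith
        · simp only [add_im, mul_im, I_re, ofReal_re, I_im, ofReal_im]
          linarith
      rw [hF]
      simp only
      rw [e, hs]
    · have e : (I * (t' : ℂ) + (r : ℂ) * (-((starRingEnd ℂ) ⟨X, y0⟩))) = s := by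
        apply Complex.ext
        · simp only [add_re, mul_re, I_re, ofReal_re, I_im, ofReal_im, neg_re, neg_im, conj_re, conj_im]
          rw [abs_of_neg h0] at hXr
          linarith
        · simp only [add_im, mul_im, I_re, ofReal_re, I_im, ofReal_im, neg_re, neg_im, conj_re, conj_im]
          linarith
      have h1 := hN.symm ⟨X, y0⟩
      rw [hF] at h1
      simp only at h1
      rw [e, hs] at h1
      have h2 := congrArg (starRingEnd ℂ) h1
      rw [Complex.conj_conj, map_zero] at h2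
      rw [hF]
      exact h2.symm
  obtain ⟨y, hy⟩ : ∃ y : ℝ, y = (t - t') / r := ⟨_, rfl⟩
  have hyr : r * y = t - t' := by rw [hy]; field_simp
  have hyy : |y - y0| ≤ c * X / (n : ℝ) ^ 2 := by
    have h1 : y - y0 = (t - s.im) / r := by rw [hy, hy0]; field_simp; ring
    rw [h1, abs_div, abs_of_pos hr0, div_le_iff₀ hr0]
    have h2 : |t - s.im| ≤ δ := by
      rw [abs_le]
      constructor <;> linarith [ht.1, ht.2]
    refine h2.trans (le_of_eq ?_)
    rw [hδ, ← hXr]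
    ring
  obtain ⟨x, hx1, hx2, hx3⟩ := hloc n η hn1 hη F hN ⟨X, y0⟩ hz0 (by show 0 < X; exact hXp) (by show X ≤ 1 / 2; linarith)
    (by show |y0| ≤ 1 / 2; linarith) y hyy
  simp only at hx1 hx2 hx3
  have hpt : ∀ v : ℝ, F (v + y * I) = XX (I * t + ((r * v : ℝ) : ℂ)) := by
    intro v
    rw [hF]
    simp only
    congr 1
    apply Complex.ext
    · simp
    · simp
      linarith
  rw [hpt, hpt] at hx3
  refine hB t (by linarith [ht.1]) (r * X) (r * x) (4 * n * (X - x)) (mul_nonneg hr0.le hx1) ?_ ?_ ?_ ?_ hx3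
  · apply mul_lt_mul_of_pos_left _ hr0
    linarith
  · nlinarith
  · have : 0 ≤ X - x := by linarith
    positivity
  · have h1 : 0 ≤ r * (X - x) := mul_nonneg hr0.le (by linarith)
    calc Real.log t * (r * X - r * x) = Real.log t * (r * (X - x)) := by ring
      _ ≤ (2 * L) * (r * (X - x)) := mul_le_mul_of_nonneg_right htL h1
      _ = 4 * n * (X - x) := by rw [hrn]; field_simp; ring

/-- the lower bound for the measure -/
theorem lowq2 {B : Set ℝ} (hB : Det B) :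
    ∃ (c C T0 : ℝ) (n0 : ℕ), 0 < c ∧ c ≤ 1 ∧ 1 ≤ C ∧ 2 ≤ T0 ∧ 1 ≤ n0 ∧ ∀ (T V : ℝ) (n : ℕ), T0 ≤ T → 0 ≤ V →
    n0 ≤ n → (n : ℝ) ≤ Real.log T / 400 →
    volume (B ∩ Icc (T / 2) (3 * T)) ≤ ENNReal.ofReal V → ∀ S : Finset ℂ,
    (∀ s ∈ S, XX s = 0 ∧ T < s.im ∧ s.im ≤ 2 * T) → ∃ S1 S2 : Finset ℂ, S1 ⊆ S ∧ S2 ⊆ S ∧ (∀ s ∈ S, s ∈ S1 ∨ s ∈ S2) ∧
    ∑ s ∈ S2, wt 0 s ≤ C * T * Real.exp (-(c * n)) * Real.log T ∧ ∑ s ∈ S1, wt 0 s * |s.re| ≤ C * n ^ 3 * V := by
  classical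
  obtain ⟨TB, hB⟩ := hB
  obtain ⟨cl, hcl0, hcl1, hloc⟩ := loc2
  obtain ⟨η, hη, hη2, ⟨C4, hC4, hcount⟩, c, C, T1, n0, hc, hC, hT1, hcnt⟩ := cnt0
  refine ⟨min c 1, max C (max (C4 / cl) 1), max T1 (2 * TB), max n0 1, lt_min hc one_pos, min_le_right _ _,
    (le_max_right _ _).trans (le_max_right _ _), hT1.trans (le_max_left _ _), le_max_right _ _, ?_⟩
  intro T V n hT hV hn hLn hvol S hS
  have hn0 : n0 ≤ n := (le_max_left _ _).trans hn
  have hn1 : 1 ≤ n := (le_max_right _ _).trans hn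
  have hn1' : (1 : ℝ) ≤ n := by exact_mod_cast hn1
  have hTT1 : T1 ≤ T := (le_max_left _ _).trans hT
  have hTTB : 2 * TB ≤ T := (le_max_right _ _).trans hT
  have hT2 : 2 ≤ T := hT1.trans hTT1
  have hL0 : 0 < Real.log T := by linarith
  have hrn : ra T n = 2 * n / Real.log T := ra_eq _ _
  have hr0 : 0 < ra T n := by rw [hrn]; positivity
  obtain ⟨M, hM⟩ : ∃ M : ℝ, M = max C (max (C4 / cl) 1) := ⟨_, rfl⟩
  have hM1 : C ≤ M := by rw [hM]; exact le_max_left _ _
  have hM2 : C4 / cl ≤ M := by rw [hM]; exact (le_max_left _ _).trans (le_max_right _ _)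
  have hM0 : 0 ≤ M := by linarith
  rw [← hM]
  obtain ⟨p, hp⟩ : ∃ p : ℂ → Prop, p = fun s => GJ η T n 0 s.im ∧ |s.re| < ra T n / 1000 := ⟨_, rfl⟩
  refine ⟨S.filter p, S.filter (fun s => ¬ p s), Finset.filter_subset _ _, Finset.filter_subset _ _, ?_, ?_, ?_⟩
  · intro s hs
    by_cases h : p s
    · exact Or.inl (Finset.mem_filter.2 ⟨hs, h⟩)
    · exact Or.inr (Finset.mem_filter.2 ⟨hs, h⟩)
  · refine (hcnt T n hTT1 hn0 hLn (S.filter (fun s => ¬ p s)) ?_).trans ?_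
    · intro s hs
      rw [Finset.mem_filter, hp] at hs
      obtain ⟨h2, h3⟩ := hs
      obtain ⟨h4, h5, h6⟩ := hS s h2
      refine ⟨h4, fun h7 => ?_, h5, h6⟩
      by_contra h8
      push Not at h8
      exact h3 ⟨h7, h8⟩
    · have h5 : Real.exp (-(c * n)) ≤ Real.exp (-(min c 1 * n)) := by
        apply Real.exp_le_exp.2
        have := min_le_left c 1
        nlinarith
      gcongr
  · have h10 := cover2 (S := (S.filter p).filter (fun s => s.re ≠ 0)) (w := wt 0) (δ := fun s => cl * |s.re| / n ^ 2)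
      (E := B ∩ Icc (T / 2) (3 * T)) (V := V) (M := C4 * n) (fun s _ => wt_nonneg 0 s) (fun s _ => by positivity) hV
      (by positivity)
      (by
        intro s hs
        rw [Finset.mem_filter, Finset.mem_filter, hp] at hs
        obtain ⟨⟨h3, h4, h5⟩, h5'⟩ := hs
        obtain ⟨h6, h8, h9⟩ := hS s h3
        exact nearq2 hcl0 hcl1 hloc (by linarith) hn1 hT2 hLn hB hTTB h6 h5' h8 h9 h4 h5)
      hvol
      (by
        intro t
        rcases Finset.eq_empty_or_nonempty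
          (((S.filter p).filter (fun s => s.re ≠ 0)).filter (fun s => |t - s.im| ≤ cl * |s.re| / n ^ 2)) with he | ⟨s0, hs0⟩
        · rw [he, Finset.sum_empty]
          positivity
        rw [Finset.mem_filter, Finset.mem_filter, Finset.mem_filter, hp] at hs0
        obtain ⟨⟨⟨hs0S, ⟨t', ht1, ht2⟩, hs0re⟩, -⟩, hs0t⟩ := hs0
        rw [pow_zero, one_mul] at ht1 ht2
        have hδ : ∀ s : ℂ, |s.re| < ra T n / 1000 → cl * |s.re| / n ^ 2 ≤ ra T n / 1000 := by
          intro s hs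
          rw [div_le_iff₀ (by positivity)]
          have : (1 : ℝ) ≤ n ^ 2 := one_le_pow₀ hn1'
          calc cl * |s.re| ≤ 1 * |s.re| := by gcongr
            _ ≤ (ra T n / 1000) * n ^ 2 := by nlinarith [abs_nonneg s.re]
        refine hcount n (ra T n) t' 0 XX hn1' (by push_cast; linarith) hr0 XX_diff ht2 _ ?_
        intro s hs
        rw [Finset.mem_filter, Finset.mem_filter, Finset.mem_filter, hp] at hs
        obtain ⟨⟨⟨hsS, -, hre⟩, -⟩, hst⟩ := hs
        refine ⟨?_, by rw [iteratedDeriv_zero]; exact (hS s hsS).1⟩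
        have h12 : (s - I * t').re = s.re := by simp
        have h13 : (s - I * t').im = s.im - t' := by simp
        have h14 := Complex.norm_le_abs_re_add_abs_im (s - I * t')
        rw [h12, h13] at h14
        have h15 : |s.im - t'| ≤ |s.im - s0.im| + |s0.im - t'| := abs_sub_le _ _ _
        have h16 : |s.im - s0.im| ≤ |s.im - t| + |t - s0.im| := abs_sub_le _ _ _
        rw [abs_sub_comm s.im t] at h16
        have h17 := hδ s hre
        have h18 := hδ s0 hs0re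
        linarith)
    have h11 : ∑ s ∈ S.filter p, wt 0 s * |s.re| = ∑ s ∈ (S.filter p).filter (fun s => s.re ≠ 0), wt 0 s * |s.re| := by
      have hne : ∀ s ∈ S.filter p, wt 0 s * |s.re| ≠ 0 → s.re ≠ 0 := by
        intro s _ h13 h0
        apply h13
        rw [h0, abs_zero, mul_zero]
      exact (Finset.sum_filter_of_ne hne).symm
    have h12 : ∑ s ∈ (S.filter p).filter (fun s => s.re ≠ 0), wt 0 s * |s.re| =
        (n ^ 2 / (2 * cl)) * ∑ s ∈ (S.filter p).filter (fun s => s.re ≠ 0), wt 0 s * (2 * (cl * |s.re| / n ^ 2)) := by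
      rw [Finset.mul_sum]
      refine Finset.sum_congr rfl fun s _ => ?_
      field_simp
    rw [h11, h12]
    calc (n ^ 2 / (2 * cl)) * ∑ s ∈ (S.filter p).filter (fun s => s.re ≠ 0), wt 0 s * (2 * (cl * |s.re| / n ^ 2)) ≤
        (n ^ 2 / (2 * cl)) * (C4 * n * V) := mul_le_mul_of_nonneg_left h10 (by positivity)
      _ = (C4 / cl) / 2 * n ^ 3 * V := by
          field_simp
      _ ≤ M * n ^ 3 * V := by
          have : 0 < C4 / cl := by positivity
          gcongr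
          linarith

end Pool.Agent.Zk5.HR4
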