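import Pool.Agent.Zk5.HR4.Low2

set_option autoImplicit false

/-! # The sum of the distances over a block, in terms of the measure of the bad heights -/

namespace Pool.Agent.Zk5.HR4

open Complex Filter Topology MeasureTheory Set
open Pool.Agent.H24R2.JP (XX)
open Pool.Agent.Zk4
open H370 (Zf mult good_zeta)
open Pool.Agent.W571.SD (wt wt_nonneg)
open Pool.Agent.TH850.UR (ew)
open Pool.Agent.Zk5.HR

/-- pointwise bound -/
theorem pt2 {κ u : ℝ} {n : ℕ} (hκ : 0 < κ) :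
    u ≤ n + 2 / κ * Real.exp (-(κ / 2 * n)) * Real.exp (κ * u) := by
  have h0 : 0 < 2 / κ * Real.exp (-(κ / 2 * n)) * Real.exp (κ * u) := by positivity
  rcases le_or_gt u n with h1 | h1
  · linarith
  · have h2 : κ / 2 * u ≤ Real.exp (κ / 2 * u) := by
      have := Real.add_one_le_exp (κ / 2 * u)
      linarith
    have h3 : Real.exp (κ / 2 * u) ≤ Real.exp (-(κ / 2 * n)) * Real.exp (κ * u) := by
      rw [← Real.exp_add]
      apply Real.exp_le_exp.2
      nlinarith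
    have h4 : u ≤ 2 / κ * Real.exp (κ / 2 * u) := by
      rw [div_mul_eq_mul_div, le_div_iff₀ hκ]
      linarith
    have h5 : 2 / κ * Real.exp (κ / 2 * u) ≤ 2 / κ * (Real.exp (-(κ / 2 * n)) * Real.exp (κ * u)) := by gcongr
    have h7 : (0 : ℝ) ≤ n := Nat.cast_nonneg _
    linarith

theorem blockq2 {B : Set ℝ} (hB : Det B) : ∃ (c C T0 : ℝ) (n0 : ℕ), 0 < c ∧ c ≤ 1 ∧ 1 ≤ C ∧ 2 ≤ T0 ∧ 1 ≤ n0 ∧
    ∀ (T V : ℝ) (n : ℕ), T0 ≤ T → 0 ≤ V → n0 ≤ n → (n : ℝ) ≤ Real.log T / 400 →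
    volume (B ∩ Icc (T / 2) (3 * T)) ≤ ENNReal.ofReal V →
    DD T (2 * T) ≤ C * T * Real.exp (-(c * n)) + C * n ^ 3 * V := by
  classical
  obtain ⟨c, C, T0, n0, hc, hc1, hC, hT0, hn0, h⟩ := lowq2 hB
  obtain ⟨κ, C2, T2, hκ, hκ1, hC2, hT2, hexp⟩ := Pool.Agent.TH850.UR.expmom
  refine ⟨min (c / 2) (κ / 2), 2 / κ * C2 + C * (2 / c) + C, max T0 T2, n0, by positivity,
    (min_le_left _ _).trans (by linarith), ?_, hT0.trans (le_max_left _ _), hn0, ?_⟩
  · have h1 : 0 < 2 / κ * C2 := by positivity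
    have h2 : 0 < C * (2 / c) := by positivity
    linarith
  intro T V n hT hV hn hnL hvol
  have hTT0 : T0 ≤ T := (le_max_left _ _).trans hT
  have hTT2 : T2 ≤ T := (le_max_right _ _).trans hT
  have hT2' : 2 ≤ T := hT0.trans hTT0
  have hn1 : (1 : ℝ) ≤ n := by exact_mod_cast hn0.trans hn
  obtain ⟨L, hL⟩ : ∃ L : ℝ, L = Real.log T := ⟨_, rfl⟩
  have hL0 : 0 < L := by rw [hL]; linarith
  have hE := hexp T hTT2
  obtain ⟨Z, hZ⟩ : ∃ Z : Finset ℂ, Z = Zf riemannZeta T (2 * T) := ⟨_, rfl⟩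
  have hinj : ∀ a ∈ Z, ∀ b ∈ Z, a - 1 / 2 = b - (1 / 2 : ℂ) → a = b := fun a _ b _ hab => by simpa using hab
  obtain ⟨S1, S2, hS1, hS2, hcov, hb2, hb1⟩ := h T V n hTT0 hV hn hnL hvol (Z.image (fun s => s - 1 / 2)) (by
      intro s hs
      rw [Finset.mem_image] at hs
      obtain ⟨w, hw, rfl⟩ := hs
      rw [hZ, H370.mem_Zf good_zeta (by linarith)] at hw
      obtain ⟨h2, h3, h4, h5, h6⟩ := hw
      have e2 : (w - 1 / 2 : ℂ).im = w.im := by simp
      rw [e2]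
      exact ⟨Pool.Agent.TH850.UR.XX_zero (by linarith) h2 h6, h4, h5⟩)
  have hm : ∀ s ∈ Z, (mult riemannZeta s : ℝ) = wt 0 (s - 1 / 2) := by
    intro s hs
    rw [hZ, H370.mem_Zf good_zeta (by linarith)] at hs
    obtain ⟨h2, h3, h4, h5, h6⟩ := hs
    unfold mult wt
    rw [iteratedDeriv_zero, Pool.Agent.TH850.UR.order_eq (by linarith) h2]
  -- sums over the two parts
  have hsum : ∀ (S' : Finset ℂ) (φ : ℂ → ℝ), S' ⊆ Z.image (fun s => s - 1 / 2) →
      ∑ s ∈ Z.filter (fun s => s - 1 / 2 ∈ S'), φ (s - 1 / 2) = ∑ s ∈ S', φ s := by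
    intro S' φ hS'
    refine Finset.sum_bij (fun s _ => s - 1 / 2) ?_ ?_ ?_ ?_
    · intro s hs
      exact (Finset.mem_filter.1 hs).2
    · intro a ha b hb hab
      exact hinj a (Finset.mem_filter.1 ha).1 b (Finset.mem_filter.1 hb).1 hab
    · intro b hb
      obtain ⟨a, ha, hab⟩ := Finset.mem_image.1 (hS' hb)
      exact ⟨a, Finset.mem_filter.2 ⟨ha, by rw [hab]; exact hb⟩, hab⟩
    · intro s _
      rfl
  have hg1 : ∑ s ∈ Z.filter (fun s => s - 1 / 2 ∈ S1), (mult riemannZeta s : ℝ) * |s.re - 1 / 2| ≤ C * n ^ 3 * V := by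
    have h2 := hsum S1 (fun s => wt 0 s * |s.re|) hS1
    rw [← h2] at hb1
    refine le_trans (le_of_eq (Finset.sum_congr rfl fun s hs => ?_)) hb1
    rw [hm s (Finset.mem_filter.1 hs).1]
    simp
  have hg2 : ∑ s ∈ Z.filter (fun s => s - 1 / 2 ∈ S2), (mult riemannZeta s : ℝ) ≤ C * T * Real.exp (-(c * n)) * Real.log T := by
    have h2 := hsum S2 (fun s => wt 0 s) hS2
    rw [← h2] at hb2
    refine le_trans (le_of_eq (Finset.sum_congr rfl fun s hs => ?_)) hb2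
    rw [hm s (Finset.mem_filter.1 hs).1]
  rw [Finset.sum_filter] at hg1 hg2
  rw [← hL] at hg2
  rw [← hL, ← mul_assoc] at hE
  -- the sum
  have h3 : L * DD T (2 * T) ≤ ∑ s ∈ Z,
      (L * (if s - 1 / 2 ∈ S1 then (mult riemannZeta s : ℝ) * |s.re - 1 / 2| else 0) +
      (n : ℝ) * (if s - 1 / 2 ∈ S2 then (mult riemannZeta s : ℝ) else 0) +
      2 / κ * Real.exp (-(κ / 2 * n)) * ((mult riemannZeta s : ℝ) * ew κ L s)) := by
    unfold DD
    rw [Finset.mul_sum, ← hZ]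
    refine Finset.sum_le_sum fun s hs => ?_
    have hm0 : (0 : ℝ) ≤ mult riemannZeta s := Nat.cast_nonneg _
    obtain ⟨u, hu⟩ : ∃ u : ℝ, u = |s.re - 1 / 2| * L := ⟨_, rfl⟩
    have hu0 : 0 ≤ u := by rw [hu]; positivity
    have h4 := pt2 (κ := κ) (u := u) (n := n) hκ
    have h5 : ew κ L s = Real.exp (κ * u) := by rw [hu]; rfl
    have h7 : max (s.re - 1 / 2) 0 * L ≤ u := by
      rw [hu]
      apply mul_le_mul_of_nonneg_right _ hL0.le
      exact max_le (le_abs_self _) (abs_nonneg _)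
    rw [← h5] at h4
    have h9 : L * ((mult riemannZeta s : ℝ) * max (s.re - 1 / 2) 0) ≤ (mult riemannZeta s : ℝ) * u := by
      calc L * ((mult riemannZeta s : ℝ) * max (s.re - 1 / 2) 0) =
          (mult riemannZeta s : ℝ) * (max (s.re - 1 / 2) 0 * L) := by ring
        _ ≤ _ := mul_le_mul_of_nonneg_left h7 hm0
    refine h9.trans ?_
    have hew : 0 < ew κ L s := by rw [h5]; exact Real.exp_pos _
    have hlast : 0 ≤ 2 / κ * Real.exp (-(κ / 2 * n)) * ((mult riemannZeta s : ℝ) * ew κ L s) := by positivity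
    have hS2n : 0 ≤ (n : ℝ) * (if s - 1 / 2 ∈ S2 then (mult riemannZeta s : ℝ) else 0) := by
      split_ifs
      · positivity
      · simp
    have hS1n : 0 ≤ L * (if s - 1 / 2 ∈ S1 then (mult riemannZeta s : ℝ) * |s.re - 1 / 2| else 0) := by
      split_ifs
      · positivity
      · simp
    rcases hcov (s - 1 / 2) (Finset.mem_image_of_mem _ hs) with h10 | h10
    · rw [if_pos h10] at hS1n ⊢
      have e : (mult riemannZeta s : ℝ) * u = L * ((mult riemannZeta s : ℝ) * |s.re - 1 / 2|) := by rw [hu]; ring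
      rw [e]
      linarith
    · rw [if_pos h10] at hS2n ⊢
      have h11 := mul_le_mul_of_nonneg_left h4 hm0
      linarith
  rw [Finset.sum_add_distrib, Finset.sum_add_distrib, ← Finset.mul_sum, ← Finset.mul_sum, ← Finset.mul_sum] at h3
  rw [← hZ] at hE
  have h4 : L * DD T (2 * T) ≤ L * (C * n ^ 3 * V) + n * (C * T * Real.exp (-(c * n)) * L) +
      2 / κ * Real.exp (-(κ / 2 * n)) * (C2 * T * L) := by
    refine h3.trans ?_
    gcongr
  have h5 : DD T (2 * T) ≤ C * n ^ 3 * V + n * (C * T * Real.exp (-(c * n))) +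
      2 / κ * Real.exp (-(κ / 2 * n)) * (C2 * T) := by
    have : L * DD T (2 * T) ≤ L * (C * n ^ 3 * V + n * (C * T * Real.exp (-(c * n))) +
      2 / κ * Real.exp (-(κ / 2 * n)) * (C2 * T)) := by
      linarith
    exact le_of_mul_le_mul_left this hL0
  refine h5.trans ?_
  obtain ⟨d, hd⟩ : ∃ d : ℝ, d = min (c / 2) (κ / 2) := ⟨_, rfl⟩
  have hd1 : d ≤ c / 2 := by rw [hd]; exact min_le_left _ _
  have hd2 : d ≤ κ / 2 := by rw [hd]; exact min_le_right _ _
  rw [← hd]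
  have hn0' : (0 : ℝ) ≤ n := by linarith
  have a2 : Real.exp (-(κ / 2 * n)) ≤ Real.exp (-(d * n)) := by
    apply Real.exp_le_exp.2
    have : d * n ≤ κ / 2 * n := by apply mul_le_mul_of_nonneg_right hd2 hn0'
    linarith
  have a3 : (n : ℝ) * Real.exp (-(c * n)) ≤ 2 / c * Real.exp (-(d * n)) := by
    have h6 : c / 2 * n ≤ Real.exp (c / 2 * n) := by
      have := Real.add_one_le_exp (c / 2 * n)
      linarith
    have h7 : (n : ℝ) ≤ 2 / c * Real.exp (c / 2 * n) := by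
      rw [div_mul_eq_mul_div, le_div_iff₀ hc]
      linarith
    calc (n : ℝ) * Real.exp (-(c * n)) ≤ (2 / c * Real.exp (c / 2 * n)) * Real.exp (-(c * n)) := by gcongr
      _ = 2 / c * Real.exp (-(c / 2 * n)) := by
          rw [mul_assoc, ← Real.exp_add]
          congr 2
          ring
      _ ≤ 2 / c * Real.exp (-(d * n)) := by gcongr
  have h1 : 0 < 2 / κ * C2 := by positivity
  have h2 : 0 < C * (2 / c) := by positivity
  have hC0 : 0 < C := by linarith
  obtain ⟨M, hM⟩ : ∃ M : ℝ, M = 2 / κ * C2 + C * (2 / c) + C := ⟨_, rfl⟩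
  have hM1 : 2 / κ * C2 + C * (2 / c) ≤ M := by rw [hM]; linarith
  have hM2 : C ≤ M := by rw [hM]; linarith
  rw [← hM]
  calc C * n ^ 3 * V + n * (C * T * Real.exp (-(c * n))) + 2 / κ * Real.exp (-(κ / 2 * n)) * (C2 * T)
      = C * n ^ 3 * V + (n * Real.exp (-(c * n))) * (C * T) + (2 / κ * C2) * T * Real.exp (-(κ / 2 * n)) := by ring
    _ ≤ C * n ^ 3 * V + (2 / c * Real.exp (-(d * n))) * (C * T) + (2 / κ * C2) * T * Real.exp (-(d * n)) := by gcongr
    _ = (2 / κ * C2 + C * (2 / c)) * T * Real.exp (-(d * n)) + C * n ^ 3 * V := by ring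
    _ ≤ M * T * Real.exp (-(d * n)) + M * n ^ 3 * V := by gcongr

end Pool.Agent.Zk5.HR4
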