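import Pool.Agent.Zk5.HR4.Cone2
import Pool.Agent.Zk5.HR3.Xc

set_option autoImplicit false

/-! # The local theorem for `ξ` and `ζ` -/

namespace Pool.Agent.Zk5.HR4

open Complex Filter Topology MeasureTheory Set
open Pool.Agent.H24R2.JP (XX HH Om)
open Pool.Agent.Zk4
open Pool.Agent.Zk5.HR
open Pool.Agent.Zk69.Hx (IncF DecF decF_of_incF)
open scoped ComplexConjugate

open Pool.Agent.Zk5.HR3 (norm_refl xx_bound)

/-- the cone lemma for `XX` -/
theorem xx_cone2 : ∃ T0 : ℝ, 400 ≤ T0 ∧ ∀ γ x0 d t : ℝ, T0 ≤ γ → XX (I * γ + x0) = 0 → 0 ≤ x0 → x0 ≤ 1 →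
    0 < d → d ≤ 1 / 2 → |t - γ| ≤ d / (10 ^ 8 * Real.log γ ^ 2) →
    ∃ u : ℝ, x0 - d ≤ u ∧ u < x0 ∧ ‖XX (I * t + x0)‖ * Real.exp (Real.log t * (x0 - u)) < ‖XX (I * t + u)‖ := by
  obtain ⟨T0, hT0, h⟩ := xx_bound
  refine ⟨T0, hT0, ?_⟩
  intro γ x0 d t hγ hz h0 h1 hd hd1 ht
  have hγ1 : T0 ≤ γ := hγ
  have hγ0 : 0 < γ := by linarith
  have hl1 : 1 ≤ Real.log γ := by
    rw [Real.le_log_iff_exp_le hγ0]
    linarith [Real.exp_one_lt_d9]
  obtain ⟨h3, hb⟩ := h γ hγ1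
  have h3p : 0 < ‖XX (I * γ + 3)‖ := norm_pos_iff.2 h3
  obtain ⟨f, hf⟩ : ∃ f : ℂ → ℂ, f = fun z => XX (I * γ + z) / XX (I * γ + 3) := ⟨_, rfl⟩
  have hfd : Differentiable ℂ f := by
    rw [hf]
    exact (Pool.Agent.H24R2.JP.B1h.XX_diff.comp ((differentiable_const _).add differentiable_id)).div_const _
  have hf3 : f 3 = 1 := by rw [hf]; exact div_self h3
  have hfb : ∀ z : ℂ, ‖z‖ ≤ 14 → ‖f z‖ ≤ Real.exp (20 * Real.log γ) := by
    intro z hz
    rw [hf]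
    simp only
    rw [norm_div, div_le_iff₀ h3p]
    exact hb z hz
  have hf0 : f x0 = 0 := by rw [hf]; simp only; rw [hz, zero_div]
  have hy : |(t - γ) - 0| ≤ (d / 2) / (200 * (20 * Real.log γ)) ^ 2 := by
    rw [sub_zero]
    refine ht.trans ?_
    rw [div_div]
    apply div_le_div_of_nonneg_left hd.le (by positivity)
    nlinarith [mul_pos (show 0 < Real.log γ by linarith) (show 0 < Real.log γ by linarith)]
  obtain ⟨u, hu1, hu2, hu3⟩ := cone2 (K := 20 * Real.log γ) (by linarith) hfd hf3 hfb (x0 := x0) (y0 := 0) (d := d / 2)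
    (y := t - γ) (by simpa using hf0) h0 h1 (by norm_num) (by linarith) (by linarith) hy
  have hu1 : x0 - d ≤ u := by linarith
  refine ⟨u, hu1, hu2, ?_⟩
  have e1 : ∀ x : ℝ, I * (γ : ℂ) + (x + ((t - γ : ℝ) : ℂ) * I) = I * t + x := by
    intro x
    push_cast
    ring
  have e2 : ∀ x : ℝ, ‖f (x + ((t - γ : ℝ) : ℂ) * I)‖ = ‖XX (I * t + x)‖ / ‖XX (I * γ + 3)‖ := by
    intro x
    rw [hf]
    simp only
    rw [e1, norm_div]
  rw [e2, e2] at hu3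
  have h4 : ‖XX (I * t + x0)‖ * Real.exp (20 * Real.log γ * (x0 - u)) < ‖XX (I * t + u)‖ := by
    rw [div_mul_eq_mul_div] at hu3
    exact (div_lt_div_iff_of_pos_right h3p).1 hu3
  refine lt_of_le_of_lt ?_ h4
  apply mul_le_mul_of_nonneg_left _ (norm_nonneg _)
  apply Real.exp_le_exp.2
  apply mul_le_mul_of_nonneg_right _ (by linarith)
  have htd : |t - γ| ≤ 1 := by
    refine ht.trans ?_
    rw [div_le_one (by positivity)]
    have : 1 ≤ Real.log γ ^ 2 := one_le_pow₀ hl1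
    linarith
  have ht' := abs_le.1 htd
  have h5 : Real.log t ≤ Real.log (γ ^ 2) := by
    apply Real.log_le_log (by linarith)
    nlinarith
  rw [Real.log_pow] at h5
  push_cast at h5
  linarith

/-- **every zero to the right of `θ` destroys the monotonicity in a cone of heights** -/
theorem local_zero2 : ∃ T0 : ℝ, 400 ≤ T0 ∧ ∀ (θ t : ℝ) (ρ : ℂ), 1 / 2 ≤ θ → riemannZeta ρ = 0 → θ < ρ.re →
    T0 ≤ ρ.im → |t - ρ.im| ≤ (ρ.re - θ) / (10 ^ 8 * Real.log ρ.im ^ 2) → ¬ IncF θ t ∧ ¬ DecF θ t := by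
  obtain ⟨T0, hT0, h⟩ := xx_cone2
  obtain ⟨T1, hT1, hgrow⟩ := hh_grow
  refine ⟨max T0 (T1 + 1), hT0.trans (le_max_left _ _), ?_⟩
  intro θ t ρ hθ hz hre him ht
  have him0 : T0 ≤ ρ.im := (le_max_left _ _).trans him
  have him1 : T1 + 1 ≤ ρ.im := (le_max_right _ _).trans him
  have hre1 : ρ.re < 1 := by
    by_contra hcon
    exact riemannZeta_ne_zero_of_one_le_re (not_lt.1 hcon) hz
  have hX : XX (ρ - 1 / 2) = 0 := (Pool.Agent.Y23.isZ_iff ρ).1 ⟨hz, by linarith, hre1⟩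
  have e : (ρ - 1 / 2 : ℂ) = I * (ρ.im : ℂ) + ((ρ.re - 1 / 2 : ℝ) : ℂ) := by
    apply Complex.ext <;> simp
  rw [e] at hX
  have hl1 : 1 ≤ Real.log ρ.im := by
    rw [Real.le_log_iff_exp_le (by linarith)]
    linarith [Real.exp_one_lt_d9]
  have htd : |t - ρ.im| ≤ 1 := by
    refine ht.trans ?_
    rw [div_le_one (by positivity)]
    have : 1 ≤ Real.log ρ.im ^ 2 := one_le_pow₀ hl1
    linarith
  have ht' := abs_le.1 htd
  have htT : T1 ≤ t := by linarith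
  have ht8 : 8 ≤ t := by linarith
  have ht0 : 0 < t := by linarith
  obtain ⟨u, hu1, hu2, hu3⟩ := h ρ.im (ρ.re - 1 / 2) (ρ.re - θ) t him0 hX (by linarith) (by linarith) (by linarith)
    (by linarith) ht
  have hnd : ¬ DecF θ t := by
    intro hA
    obtain ⟨x0, hx0⟩ : ∃ x0 : ℝ, x0 = ρ.re - 1 / 2 := ⟨_, rfl⟩
    rw [← hx0] at hu2 hu3
    have hu0 : θ - 1 / 2 ≤ u := by linarith
    have hnz : ∀ u : ℝ, ‖riemannZeta (((1 / 2 - u : ℝ) : ℂ) + t * I)‖ * ‖HH (I * t - u)‖ = ‖XX (I * t + u)‖ := by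
      intro u
      have h3 := Pool.Agent.H24R2.JP.ZetaTask.part1 (I * t - u) (by simpa using ht0)
      have e : (1 / 2 + (I * (t : ℂ) - u)) = ((1 / 2 - u : ℝ) : ℂ) + t * I := by push_cast; ring
      rw [e] at h3
      rw [← norm_XX_left, h3, norm_mul, mul_comm]
    have h4 := hA (show (1 / 2 - x0 : ℝ) ∈ Iic (1 - θ) by simp only [mem_Iic]; linarith)
      (show (1 / 2 - u : ℝ) ∈ Iic (1 - θ) by simp only [mem_Iic]; linarith)
      (show (1 / 2 - x0 : ℝ) < 1 / 2 - u by linarith)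
    simp only at h4
    have h5 := hgrow t htT x0 u (by linarith) hu2.le (by linarith)
    have h6 : 0 < ‖HH (I * t - u)‖ := by
      rw [norm_pos_iff]
      exact Pool.Agent.H24R2.JP.StirAux.HH_ne (by simpa using ht0)
    have h8 : ‖riemannZeta (((1 / 2 - u : ℝ) : ℂ) + t * I)‖ * ‖HH (I * t - u)‖ <
        ‖riemannZeta (((1 / 2 - x0 : ℝ) : ℂ) + t * I)‖ * ‖HH (I * t - u)‖ :=
      mul_lt_mul_of_pos_right h4 h6
    rw [hnz u] at h8
    have h9 : ‖riemannZeta (((1 / 2 - x0 : ℝ) : ℂ) + t * I)‖ * ‖HH (I * t - u)‖ ≤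
        ‖XX (I * t + x0)‖ * Real.exp (Real.log t * (x0 - u)) := by
      rw [← hnz x0]
      calc ‖riemannZeta (((1 / 2 - x0 : ℝ) : ℂ) + t * I)‖ * ‖HH (I * t - u)‖ ≤
          ‖riemannZeta (((1 / 2 - x0 : ℝ) : ℂ) + t * I)‖ * (‖HH (I * t - x0)‖ * Real.exp (Real.log t * (x0 - u))) :=
            mul_le_mul_of_nonneg_left h5 (norm_nonneg _)
        _ = _ := by ring
    linarith
  exact ⟨fun hi => hnd (decF_of_incF hθ ht8 hi), hnd⟩

end Pool.Agent.Zk5.HR4
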